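import Mathlib
import Pool.Agent.H39.Q1.FlatW
import Pool.Agent.Q1.M6e.OneArm

set_option autoImplicit false
open Finset

/-! # The geometry of one tie

Coordinates `lm c ε` of helper39: `c = true` : open colour, `w` a vertex of the wall; `c = false` : closed
colour, `w` a face of the wall; `ε` : orientation (the domain is the half plane `v₁ + v₂ ≥ z₁ + z₂`,
`z = gm ε w`). `HBx` : labels of the half box of radius `r` at `w`. `P1` : the cluster of `w` of the
colour `c` in the half box reaches the distance `r`. `P1_le` : its probability is at most `C r ^ (-1/3)`.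
`toggle_open`, `toggle_closed` : if `P1` fails the state of the tie at `w` does not matter. -/

namespace Pool.Agent.H46.G1

open Pool.Agent.H75.Perc Pool.Agent.H75.TwoArm Pool.Agent.H75.Four Pool.Agent.H69.Q1
open Pool.Agent.Q1 Pool.Agent.H99.NC Pool.Agent.H49.Perc Pool.Agent.H39.Q1
open Pool.Agent.H60.Q1
open Pool.Agent.H20.Q1 (Eh hf hf_Pr BR_ends BR_of_ends)
open Pool.Agent.H59.Q1 (W1 a1 W1_local Pr_W1 a1_bd)

variable {X : Env} {W ω ξ : Finset (ℤ × ℤ)} {w l t u v δ c0 : ℤ × ℤ} {r r' : ℤ} {ε : Bool × Bool}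
  {c : Bool}

/-- labels of the half box of radius `r` at the wall point `w` -/
noncomputable def HBx (c : Bool) (ε : Bool × Bool) (w : ℤ × ℤ) (r : ℤ) : Finset (ℤ × ℤ) :=
  (HL 1 (gm ε w) r).image fun l => gm ε l - tc c

lemma mem_HBx : l ∈ HBx c ε w r ↔ lm c ε l ∈ HL 1 (gm ε w) r := by
  unfold HBx
  rw [mem_image]
  constructor
  · rintro ⟨m, hm, rfl⟩
    rw [lm_apply, sub_add_cancel, gm_gm]; exact hm
  · intro h
    exact ⟨lm c ε l, h, by rw [lm_apply, gm_gm, add_sub_cancel_right]⟩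

lemma map_HBx : (HBx c ε w r).map (lm c ε) = HL 1 (gm ε w) r := by
  ext l
  rw [mem_lm, mem_HBx, lm_apply, sub_add_cancel, gm_gm]

lemma HBx_mono (h : r ≤ r') : HBx c ε w r ⊆ HBx c ε w r' := by
  intro l hl
  rw [mem_HBx] at hl ⊢
  exact Pool.Agent.Q1.M6e.HL_mono h hl

/-- the cluster of `w` of the colour `c` in the half box reaches the distance `r` -/
def P1 (c : Bool) (ε : Bool × Bool) (w : ℤ × ℤ) (r : ℤ) (ξ : Finset (ℤ × ℤ)) : Prop :=
  W1 1 (gm ε w) r (push c ε (HBx c ε w r) (ξ ∩ HBx c ε w r))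

lemma P1_local : P1 c ε w r ξ ↔ P1 c ε w r (ξ ∩ HBx c ε w r) := by
  unfold P1
  rw [inter_assoc, inter_self]

/-! ### Probability -/

open Classical in
lemma Eh_ind (E : Finset (ℤ × ℤ)) (A : Finset (ℤ × ℤ) → Prop) :
    Eh E (fun ω => if A ω then 1 else 0) = ((Pr E A : ℝ) : ℂ) := by
  unfold Eh Pr
  rw [Ec_half]
  rw [sum_ite, sum_const_zero, add_zero, sum_const, nsmul_eq_mul, mul_one]
  push_cast
  rw [div_pow, one_pow]
  ring

lemma Pr_P1 : Pr (HBx c ε w r) (P1 c ε w r) = a1 1 r := by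
  classical
  rw [← Pr_W1 (κ := 1) (z := gm ε w) (R := r) (Subset.refl _)]
  have h1 := Eh_push (c := c) (ε := ε) (HBx c ε w r)
    (fun ω => if W1 1 (gm ε w) r ω then (1 : ℂ) else 0)
  rw [map_HBx, Eh_ind] at h1
  have h2 : Eh (HBx c ε w r) (fun ω => if W1 1 (gm ε w) r (push c ε (HBx c ε w r) ω) then
      (1 : ℂ) else 0) = Eh (HBx c ε w r) (fun ω => if P1 c ε w r ω then (1 : ℂ) else 0) := by
    refine Ec_congr fun ω hω => ?_
    unfold P1
    rw [inter_eq_left.2 hω]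
  rw [h2, Eh_ind] at h1
  exact_mod_cast h1.symm

/-- **(a)** -/
theorem P1_le : ∃ C : ℝ, 1 ≤ C ∧ ∀ (c : Bool) (ε : Bool × Bool) (w : ℤ × ℤ) (r : ℤ), 1 ≤ r →
    PrP (fun _ => (1 / 2 : ℝ)) (HBx c ε w r) (P1 c ε w r) ≤ C * (r : ℝ) ^ (-(1 / 3) : ℝ) := by
  obtain ⟨c0, C, -, -, hC, h⟩ := a1_bd
  refine ⟨C, hC, fun c ε w r hr => ?_⟩
  have e1 : PrP (fun _ => (1 / 2 : ℝ)) (HBx c ε w r) (P1 c ε w r) =
      Pr (HBx c ε w r) (P1 c ε w r) := PrP_half _ _
  rw [e1, Pr_P1]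
  exact (h 1 (Or.inr rfl) r hr).2

/-- **(a)** for the radius `D / K`, `D` = distance to the other points -/
theorem P1_le_div : ∃ C : ℝ, 1 ≤ C ∧ ∀ (c : Bool) (ε : Bool × Bool) (w : ℤ × ℤ) (D K : ℤ), 1 ≤ D →
    1 ≤ K → PrP (fun _ => (1 / 2 : ℝ)) (HBx c ε w (D / K))
      (fun ξ => 1 ≤ D / K → P1 c ε w (D / K) ξ) ≤ C * K * ((D : ℝ) ^ (1 / 3 : ℝ))⁻¹ := by
  obtain ⟨C, hC, h⟩ := P1_le
  refine ⟨2 * C, by linarith, fun c ε w D K hD hK => ?_⟩
  have hq : Pb (fun _ : ℤ × ℤ => (1 : ℝ) / 2) := fun _ => by norm_num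
  have hD' : (1 : ℝ) ≤ D := by exact_mod_cast hD
  have hK' : (1 : ℝ) ≤ K := by exact_mod_cast hK
  have hDp : 0 < (D : ℝ) ^ (1 / 3 : ℝ) := Real.rpow_pos_of_pos (by linarith) _
  have e0 : ((D : ℝ) ^ (1 / 3 : ℝ))⁻¹ = (D : ℝ) ^ (-(1 / 3) : ℝ) := by
    rw [Real.rpow_neg (by linarith)]
  have e1 := Int.mul_ediv_add_emod D K
  have e2 := Int.emod_lt_of_pos D (show 0 < K by omega)
  set r := D / K with hr
  rcases lt_or_ge r 1 with h1 | h1
  · have h2 : D < K := by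
      have : K * r ≤ 0 := mul_nonpos_of_nonneg_of_nonpos (by omega) (by omega)
      omega
    have h2' : (D : ℝ) ≤ K := by exact_mod_cast h2.le
    have h3 : PrP (fun _ => (1 / 2 : ℝ)) (HBx c ε w r) (fun ξ => 1 ≤ r → P1 c ε w r ξ) ≤ 1 :=
      PrP_le_one hq _ _
    have h4 : (D : ℝ) ^ (1 / 3 : ℝ) ≤ K := by
      calc (D : ℝ) ^ (1 / 3 : ℝ) ≤ (D : ℝ) ^ (1 : ℝ) :=
            Real.rpow_le_rpow_of_exponent_le hD' (by norm_num)
        _ = D := Real.rpow_one _
        _ ≤ K := h2'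
    refine h3.trans ?_
    rw [← div_eq_mul_inv, le_div_iff₀ hDp]
    nlinarith
  · have h2 : PrP (fun _ => (1 / 2 : ℝ)) (HBx c ε w r) (fun ξ => 1 ≤ r → P1 c ε w r ξ) ≤
        PrP (fun _ => (1 / 2 : ℝ)) (HBx c ε w r) (P1 c ε w r) :=
      PrP_mono hq fun ω _ h => h h1
    refine h2.trans ((h c ε w r h1).trans ?_)
    have h3 : (D : ℝ) ≤ 2 * K * r := by
      have : D ≤ 2 * K * r := by nlinarith
      exact_mod_cast this
    have hr' : (0 : ℝ) < r := by exact_mod_cast (by omega : 0 < r)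
    have h4 : (r : ℝ) ^ (-(1 / 3) : ℝ) ≤ (D / (2 * K)) ^ (-(1 / 3) : ℝ) := by
      refine Real.rpow_le_rpow_of_nonpos (by positivity) ?_ (by norm_num)
      rw [div_le_iff₀ (by positivity)]
      linarith
    have h5 : ((D : ℝ) / (2 * K)) ^ (-(1 / 3) : ℝ) ≤ 2 * K * ((D : ℝ) ^ (1 / 3 : ℝ))⁻¹ := by
      rw [e0, Real.div_rpow (by linarith) (by positivity), div_eq_mul_inv,
        ← Real.rpow_neg (by positivity), neg_neg, mul_comm]
      refine mul_le_mul_of_nonneg_right ?_ (by positivity)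
      calc (2 * (K : ℝ)) ^ (1 / 3 : ℝ) ≤ (2 * (K : ℝ)) ^ (1 : ℝ) :=
            Real.rpow_le_rpow_of_exponent_le (by linarith) (by norm_num)
        _ = 2 * K := Real.rpow_one _
    calc C * (r : ℝ) ^ (-(1 / 3) : ℝ) ≤ C * (2 * K * ((D : ℝ) ^ (1 / 3 : ℝ))⁻¹) :=
          mul_le_mul_of_nonneg_left (h4.trans h5) (by linarith)
      _ = _ := by ring

/-! ### Toggles -/

/-- height of a vertex over the wall -/
def hv (z v : ℤ × ℤ) : ℤ := v.1 + v.2 - (z.1 + z.2)

/-- clusters near the wall: if `G` has no label at height `-1` in the box then a `G`-path from the wall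
vertex `z` stays above the wall and in the half box, unless it reaches the distance `r` in the half
box -/
lemma stay {G : Finset (ℤ × ℤ)} {z : ℤ × ℤ} (hr : 1 ≤ r)
    (hlow : ∀ l ∈ G, l ∈ BR z r → hg z l ≠ -1) (hP : ¬ W1 1 z r G) (h : Co G z v) :
    inR z (r - 1) v ∧ 0 ≤ hv z v ∧ Co (G ∩ HL 1 z r) z v := by
  induction h with
  | refl =>
    refine ⟨?_, ?_, Co.refl _ _⟩
    · rw [inR_iff]; omega
    · unfold hv; omega
  | @tail a b _ hab ih =>
    obtain ⟨h1, h2, h3⟩ := ih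
    obtain ⟨h4, h5⟩ := hab
    have h6 := unit_cases h4
    rw [inR_iff] at h1
    unfold hv at h2
    have h7 : a + b ∈ BR z r := by
      rw [mem_BRz]
      simp only [Prod.fst_add, Prod.snd_add]
      omega
    have h8 := hlow _ h5 h7
    unfold hg at h8
    simp only [Prod.fst_add, Prod.snd_add] at h8
    have h9 : a + b ∈ HL 1 z r := by
      rw [mem_HL]
      simp only [Prod.fst_add, Prod.snd_add]
      omega
    have h10 : Co (G ∩ HL 1 z r) z b := h3.tail ⟨h4, mem_inter.2 ⟨h5, h9⟩⟩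
    refine ⟨?_, ?_, h10⟩
    · by_contra hcon
      refine hP ⟨b, ?_, h10⟩
      rw [inR_iff] at hcon
      unfold Far
      rw [le_abs, le_abs]
      omega
    · unfold hv; omega

/-- the outer end of a tie is not above the wall -/
lemma out_low {z o : ℤ × ℤ} (hδ : δ = (1, 0) ∨ δ = (0, 1)) (h : o = z - δ) : hv z o = -1 := by
  rw [h]
  unfold hv
  rcases hδ with h | h <;> rw [h] <;> simp only [Prod.fst_sub, Prod.snd_sub] <;> omega

lemma unit_of_delta (hδ : δ = (1, 0) ∨ δ = (0, 1)) {z : ℤ × ℤ} : IsUnit4 (z - (z - δ)) := by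
  rw [sub_sub_cancel]
  unfold IsUnit4
  rcases hδ with h | h <;> rw [h] <;> simp

/-- **(b), open colour**: the tie `t` joins the wall vertex `w` to `gm ε (gm ε w - δ)`. -/
theorem toggle_open (hX : X.PlaneLike W) (hω : ω ⊆ X.E) (ht : t ∈ X.E) (htω : t ∉ ω ∪ W)
    (hδ : δ = (1, 0) ∨ δ = (0, 1)) (htie : lm true ε t = gm ε w + gm ε w - δ) (hr : 1 ≤ r)
    (hlow : ∀ l ∈ ω ∪ W, lm true ε l ∈ BR (gm ε w) r → hg (gm ε w) (lm true ε l) ≠ -1)
    (hbulk : Disjoint (HBx true ε w r) W) (hP : ¬ P1 true ε w r ω)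
    (hroot : inR w (r - 1) (vx X.c0) → 0 ≤ hv (gm ε w) (gm ε (vx X.c0)) → False)
    (hc : inR w (r - 1) (vx c0) → 0 ≤ hv (gm ε w) (gm ε (vx c0)) → False) :
    X.incO ω c0 = X.incO (insert t ω) c0 := by
  set z := gm ε w with hz
  set G := (ω ∪ W).map (gmE ε) with hG
  have hlm : ∀ l, lm true ε l = gm ε l := fun l => by
    rw [lm_apply]; unfold tc; rw [if_pos rfl]; exact congrArg _ (add_zero l)
  have hlow' : ∀ l ∈ G, l ∈ BR z r → hg z l ≠ -1 := by
    intro l hl hb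
    rw [hG, mem_gmE] at hl
    have := hlow _ hl (by rw [hlm, gm_gm]; exact hb)
    rwa [hlm, gm_gm] at this
  have hP' : ¬ W1 1 z r G := by
    intro h
    apply hP
    unfold P1
    obtain ⟨v, h1, h2⟩ := h
    refine ⟨v, h1, h2.mono fun l hl => ?_⟩
    obtain ⟨h3, h4⟩ := mem_inter.1 hl
    rw [hG, mem_gmE] at h3
    have h5 : gm ε l ∈ HBx true ε w r := by rw [mem_HBx, hlm, gm_gm]; exact h4
    have h6 : gm ε l ∈ ω := by
      rcases mem_union.1 h3 with h | h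
      · exact h
      · exact absurd h (disjoint_left.1 hbulk h5)
    refine mem_inter.2 ⟨?_, h4⟩
    rw [mem_push inter_subset_right]
    have e : gm ε l - tc true = gm ε l := by unfold tc; rw [if_pos rfl]; exact sub_zero _
    rw [e]
    exact ⟨h5, fun _ => rfl, fun _ => mem_inter.2 ⟨h6, h5⟩⟩
  have key : ∀ v, Co (ω ∪ W) w v → inR w (r - 1) v ∧ 0 ≤ hv z (gm ε v) := by
    intro v hv
    have h1 := Co_gm (ε := ε) hv
    obtain ⟨h2, h3, -⟩ := stay hr hlow' hP' h1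
    exact ⟨inR_gm.1 h2, h3⟩
  have hend : gm ε (z - δ) + w = t := by
    have h0 : gm ε t = z + z - δ := by rw [← hlm]; exact htie
    have h1 := congrArg (gm ε) h0
    rw [gm_gm] at h1
    rw [h1]
    have h2 : w = gm ε z := by rw [hz, gm_gm]
    conv_lhs => rw [h2]
    rw [← gm_add]
    congr 1
    abel
  have hunit : IsUnit4 (w - gm ε (z - δ)) := by
    have h1 := gm_unit (ε := ε) (unit_of_delta hδ (z := z))
    rw [hz, gm_gm] at h1
    exact h1
  refine incO_toggle_B hX hω ht htω hunit hend ?_ ?_ ?_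
  · intro h
    have h1 := (key _ h.symm).2
    rw [gm_gm, out_low hδ rfl] at h1
    omega
  · exact fun h => hroot (key _ h).1 (key _ h).2
  · exact fun h => hc (key _ h).1 (key _ h).2

lemma dco_map {G : Finset (ℤ × ℤ)} {f : ℤ × ℤ} (h : DCo G w f) {H : Finset (ℤ × ℤ)}
    (hH : ∀ l, l ∉ G → lm false ε l ∈ BR (gm ε w) r → lm false ε l ∈ H)
    (hr : 1 ≤ r) (hlow : ∀ l ∈ H, l ∈ BR (gm ε w) r → hg (gm ε w) l ≠ -1)
    (hP : ¬ W1 1 (gm ε w) r H) : inR w (r - 1) f ∧ 0 ≤ hv (gm ε w) (gm ε f) ∧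
      Co H (gm ε w) (gm ε f) := by
  refine DCo.ind (P := fun f => inR w (r - 1) f ∧ 0 ≤ hv (gm ε w) (gm ε f) ∧
    Co H (gm ε w) (gm ε f)) h ?_ ?_
  · refine ⟨?_, ?_, Co.refl _ _⟩
    · rw [inR_iff]; omega
    · unfold hv; omega
  · intro a b ih h1 h2
    obtain ⟨h3, h4, h5⟩ := ih
    have h3' := (inR_gm (ε := ε)).2 h3
    have h6 := gm_unit (ε := ε) h1
    have h7 := unit_cases h6
    have h8 : lm false ε (a + b - (1, 1)) = gm ε a + gm ε b := by
      rw [lm_apply]; unfold tc; rw [if_neg Bool.false_ne_true, sub_add_cancel, gm_add]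
    have h9 : lm false ε (a + b - (1, 1)) ∈ BR (gm ε w) r := by
      rw [h8, mem_BRz]
      rw [inR_iff] at h3'
      simp only [Prod.fst_add, Prod.snd_add]
      omega
    have h10 : Co H (gm ε w) (gm ε b) := h5.tail ⟨h6, by rw [← h8]; exact hH _ h2 h9⟩
    obtain ⟨g1, g2, -⟩ := stay hr hlow hP h10
    exact ⟨inR_gm.1 g1, g2, h10⟩

/-- **(b), closed colour**: the tie `t` (closed) joins the wall face `w` to `gm ε (gm ε w - δ)`. -/
theorem toggle_closed (hX : X.PlaneLike W) (hω : ω ⊆ X.E) (ht : t ∈ X.E) (htω : t ∉ ω ∪ W)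
    (hδ : δ = (1, 0) ∨ δ = (0, 1)) (htie : lm false ε t = gm ε w + gm ε w - δ) (hr : 1 ≤ r)
    (hlow : ∀ l, l ∉ ω ∪ W → l ≠ t → lm false ε l ∈ BR (gm ε w) r →
      hg (gm ε w) (lm false ε l) ≠ -1)
    (hP : ¬ P1 false ε w r ω)
    (hroot : inR w (r - 1) (fi X.c0) → 0 ≤ hv (gm ε w) (gm ε (fi X.c0)) → False)
    (hc : inR w (r - 1) (fi c0) → 0 ≤ hv (gm ε w) (gm ε (fi c0)) → False) :
    X.incO ω c0 = X.incO (insert t ω) c0 := by
  classical
  set z := gm ε w with hz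
  set G := insert t (ω ∪ W) with hG
  set H := ((HL 1 z r) ∪ BR z r).filter (fun l => gm ε l - (1, 1) ∉ G) with hH
  have hlm : ∀ l, lm false ε l = gm ε (l + (1, 1)) := fun l => by
    rw [lm_apply]; unfold tc; rw [if_neg Bool.false_ne_true]
  have hback : ∀ l, lm false ε (gm ε l - (1, 1)) = l := fun l => by
    rw [hlm, sub_add_cancel, gm_gm]
  have hH' : ∀ l, l ∉ G → lm false ε l ∈ BR z r → lm false ε l ∈ H := by
    intro l h1 h2
    rw [hH, mem_filter]
    refine ⟨mem_union_right _ h2, ?_⟩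
    rw [hlm, gm_gm, add_sub_cancel_right]; exact h1
  have hlow' : ∀ l ∈ H, l ∈ BR z r → hg z l ≠ -1 := by
    intro l hl hb
    rw [hH, mem_filter] at hl
    have h1 := hl.2
    rw [hG, mem_insert, not_or] at h1
    have := hlow _ h1.2 h1.1 (by rw [hback]; exact hb)
    rwa [hback] at this
  have hP' : ¬ W1 1 z r H := by
    intro h
    apply hP
    unfold P1
    obtain ⟨v, h1, h2⟩ := h
    refine ⟨v, h1, h2.mono fun l hl => ?_⟩
    obtain ⟨h3, h4⟩ := mem_inter.1 hl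
    rw [hH, mem_filter] at h3
    have h5 : gm ε l - (1, 1) ∈ HBx false ε w r := by rw [mem_HBx, hback]; exact h4
    refine mem_inter.2 ⟨?_, h4⟩
    rw [mem_push inter_subset_right]
    have e : gm ε l - tc false = gm ε l - (1, 1) := by
      unfold tc; rw [if_neg Bool.false_ne_true]
    rw [e]
    refine ⟨h5, fun h => ?_, fun h => absurd h Bool.false_ne_true⟩
    exact absurd (mem_insert_of_mem (mem_union_left _ (mem_inter.1 h).1)) h3.2
  have key : ∀ f, DCo G w f → inR w (r - 1) f ∧ 0 ≤ hv z (gm ε f) := by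
    intro f hf
    obtain ⟨h1, h2, -⟩ := dco_map hf hH' hr hlow' hP'
    exact ⟨h1, h2⟩
  have hend : w + gm ε (z - δ) = t + (1, 1) := by
    have h1 : gm ε (gm ε (t + (1, 1))) = gm ε (z + z - δ) := by rw [← hlm, htie]
    rw [gm_gm] at h1
    rw [h1]
    have h2 : w = gm ε z := by rw [hz, gm_gm]
    conv_lhs => rw [h2]
    rw [← gm_add]
    congr 1
    abel
  have hunit : IsUnit4 (gm ε (z - δ) - w) := by
    have h1 := gm_unit (ε := ε) (unit_of_delta hδ (z := z))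
    rw [hz, gm_gm] at h1
    have := isUnit4_neg h1
    rwa [neg_sub] at this
  refine incO_toggle_D hX hω ht htω hunit hend ?_ ?_ ?_
  · intro h
    have h1 := (key _ h).2
    rw [gm_gm, out_low hδ rfl] at h1
    omega
  · exact fun h => hroot (key _ h).1 (key _ h).2
  · exact fun h => hc (key _ h).1 (key _ h).2

end Pool.Agent.H46.G1
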