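import Mathlib
import Pool.Agent.Q1.M6b.Pos

set_option autoImplicit false
open Finset

/-! # Sum over the sets of wall points

`∑ w, ∏ x ∈ w, r_w(x) ^ (-1/3) ≤ C N ^ (2 j / 3)`, sum over the sets `w` of `j` points on finitely many
segments of length at most `N`, `r_w(x)` = distance of `x` to the other points of `w` on its segment and to
the ends of the segment. -/

namespace Pool.Agent.H46.G1

open Pool.Agent.Q1.M6b

/-- distance of `t` to the other points of `v` and to the end points `-1`, `N` -/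
noncomputable def gap1 (N : ℤ) (v : Finset ℤ) (t : ℤ) : ℤ :=
  (insert (-1) (insert N (v.erase t))).inf' (insert_nonempty _ _) fun s => |t - s|

lemma gap1_le_of_mem {N : ℤ} {v : Finset ℤ} {t s : ℤ} (hs : s ∈ v) (hne : s ≠ t) :
    gap1 N v t ≤ |t - s| := by
  unfold gap1
  exact inf'_le _ (mem_insert_of_mem (mem_insert_of_mem (mem_erase.2 ⟨hne, hs⟩)))

lemma gap1_le_left {N : ℤ} {v : Finset ℤ} {t : ℤ} (h : -1 ≤ t) : gap1 N v t ≤ t + 1 := by
  have h1 : gap1 N v t ≤ |t - (-1)| := inf'_le _ (mem_insert_self _ _)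
  rw [abs_of_nonneg (by omega)] at h1
  omega

lemma gap1_le_right {N : ℤ} {v : Finset ℤ} {t : ℤ} (h : t ≤ N) : gap1 N v t ≤ N - t := by
  have h1 : gap1 N v t ≤ |t - N| := inf'_le _ (mem_insert_of_mem (mem_insert_self _ _))
  rw [abs_of_nonpos (by omega)] at h1
  omega

lemma gap1_attain (N : ℤ) (v : Finset ℤ) (t : ℤ) :
    (∃ s ∈ v, s ≠ t ∧ |t - s| = gap1 N v t) ∨ |t - (-1)| = gap1 N v t ∨ |t - N| = gap1 N v t := by
  obtain ⟨s, hs, h⟩ := exists_mem_eq_inf' (insert_nonempty (-1) (insert N (v.erase t)))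
    (fun s => |t - s|)
  rw [mem_insert, mem_insert, mem_erase] at hs
  rcases hs with rfl | rfl | ⟨h1, h2⟩
  · exact Or.inr (Or.inl h.symm)
  · exact Or.inr (Or.inr h.symm)
  · exact Or.inl ⟨s, h2, h1, h.symm⟩

lemma gap1_pos {N : ℤ} {v : Finset ℤ} {t : ℤ} (h0 : 0 ≤ t) (h1 : t < N) : 1 ≤ gap1 N v t := by
  rcases gap1_attain N v t with ⟨s, _, hne, h⟩ | h | h
  · rw [← h]
    have : 0 < |t - s| := abs_pos.2 (by intro h'; exact hne (by omega))
    omega
  · rw [← h, abs_of_nonneg (by omega)]; omega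
  · rw [← h, abs_of_nonpos (by omega)]; omega

/-- **One segment.** -/
theorem wall1 (N m : ℕ) : ∑ v ∈ powersetCard m (Finset.Ico (0 : ℤ) N),
    ∏ t ∈ v, (cr (gap1 (N : ℤ) v t : ℝ))⁻¹ ≤ (6 * cr ((N + 1 : ℕ) : ℝ) ^ 2) ^ m := by
  classical
  have hN : (0 : ℤ) ≤ (N : ℤ) := by positivity
  rw [Pool.Agent.Q1.M6b.sum_powerset]
  have key : ∀ j ∈ inc m (N : ℤ), ∏ t ∈ univ.image j, (cr (gap1 (N : ℤ) (univ.image j) t : ℝ))⁻¹ ≤
      ∑ p : Fin m → Bool, ∏ i, (cr (gp (N : ℤ) j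
        ((if p i then i.succ else i.castSucc : Fin (m + 1)) : ℕ) : ℝ))⁻¹ := by
    intro j hj
    have hmono := (mem_inc.1 hj).2
    rw [prod_image hmono.injective.injOn]
    have e1 : ∑ p : Fin m → Bool, ∏ i, (cr (gp (N : ℤ) j
        ((if p i then i.succ else i.castSucc : Fin (m + 1)) : ℕ) : ℝ))⁻¹ =
        ∏ i : Fin m, ∑ b : Bool, (cr (gp (N : ℤ) j
        ((if b then i.succ else i.castSucc : Fin (m + 1)) : ℕ) : ℝ))⁻¹ := by
      rw [Finset.prod_univ_sum, Fintype.piFinset_univ]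
    rw [e1]
    refine prod_le_prod (fun i _ => inv_nonneg.2 (cr_nonneg ?_)) fun i _ => ?_
    · have h1 := (mem_inc.1 hj).1 i
      have := gap1_pos (v := univ.image j) h1.1 h1.2
      exact_mod_cast (by omega : (0 : ℤ) ≤ _)
    · have p1 := gp_pos hN hj (k := i) (by have := i.2; omega)
      have p2 := gp_pos hN hj (k := i + 1) (by have := i.2; omega)
      have h := near_gp hN hj i (D := gap1 (N : ℤ) (univ.image j) (j i)) (by
        rcases gap1_attain (N : ℤ) (univ.image j) (j i) with ⟨s, hs, hne, h⟩ | h | h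
        · obtain ⟨l, _, rfl⟩ := mem_image.1 hs
          exact Or.inl ⟨l, fun h' => hne (by rw [h']), h.le⟩
        · exact Or.inr ⟨-1, by simp, h.le⟩
        · exact Or.inr ⟨N, by simp, h.le⟩)
      rw [Fintype.sum_bool]
      simp only [if_true, Bool.false_eq_true, if_false, Fin.val_succ, Fin.val_castSucc]
      have q1 : (0 : ℝ) < gp (N : ℤ) j i := by exact_mod_cast (by omega : (0 : ℤ) < _)
      have q2 : (0 : ℝ) < gp (N : ℤ) j (i + 1) := by exact_mod_cast (by omega : (0 : ℤ) < _)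
      have n1 : 0 ≤ (cr (gp (N : ℤ) j i : ℝ))⁻¹ := inv_nonneg.2 (cr_nonneg q1.le)
      have n2 : 0 ≤ (cr (gp (N : ℤ) j (i + 1) : ℝ))⁻¹ := inv_nonneg.2 (cr_nonneg q2.le)
      rcases h with h | h
      · have h' : ((gp (N : ℤ) j i : ℤ) : ℝ) ≤ ((gap1 (N : ℤ) (univ.image j) (j i) : ℤ) : ℝ) := by
          exact_mod_cast h
        have := inv_anti₀ (cr_pos q1) (cr_mono q1.le h')
        linarith
      · have h' : ((gp (N : ℤ) j (i + 1) : ℤ) : ℝ) ≤
            ((gap1 (N : ℤ) (univ.image j) (j i) : ℤ) : ℝ) := by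
          exact_mod_cast h
        have := inv_anti₀ (cr_pos q2) (cr_mono q2.le h')
        linarith
  refine (sum_le_sum key).trans ?_
  rw [sum_comm]
  have hpos : (0 : ℝ) < ((N + 1 : ℕ) : ℝ) := by positivity
  have hc := cr_pos hpos
  have hcube := cr_cube hpos.le
  have e2 : ((3 : ℝ) * ((N + 1 : ℕ) : ℝ)) ^ m * ((cr ((N + 1 : ℕ) : ℝ))⁻¹) ^ m =
      (3 * cr ((N + 1 : ℕ) : ℝ) ^ 2) ^ m := by
    rw [← mul_pow]
    congr 1
    have h1 : ((N + 1 : ℕ) : ℝ) * (cr ((N + 1 : ℕ) : ℝ))⁻¹ = cr ((N + 1 : ℕ) : ℝ) ^ 2 := by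
      rw [mul_inv_eq_iff_eq_mul₀ hc.ne', ← pow_succ]
      exact hcube.symm
    rw [mul_assoc, h1]
  have each : ∀ p : Fin m → Bool, ∑ j ∈ inc m (N : ℤ), ∏ i, (cr (gp (N : ℤ) j
        ((if p i then i.succ else i.castSucc : Fin (m + 1)) : ℕ) : ℝ))⁻¹ ≤
      (3 * cr ((N + 1 : ℕ) : ℝ) ^ 2) ^ m := by
    intro p
    rw [← e2]
    exact gap_sum (N := N) (fun i : Fin m => if p i then i.succ else i.castSucc) (by
      intro i
      by_cases h : p i
      · right; simp [h]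
      · left; simp [h])
  refine (sum_le_sum fun p _ => each p).trans ?_
  rw [sum_const, card_univ, Fintype.card_fun, Fintype.card_bool, Fintype.card_fin, nsmul_eq_mul]
  push_cast
  rw [← mul_pow]
  refine le_of_eq ?_
  congr 1
  ring

/-! ### Several segments -/

variable {κ : Type*} [Fintype κ] [DecidableEq κ]

/-- the points of the segments -/
noncomputable def Wp (N : κ → ℕ) : Finset (κ × ℤ) :=
  univ.biUnion fun a => (Finset.Ico (0 : ℤ) (N a)).image fun t => (a, t)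

lemma mem_Wp {N : κ → ℕ} {x : κ × ℤ} : x ∈ Wp N ↔ 0 ≤ x.2 ∧ x.2 < N x.1 := by
  unfold Wp
  rw [mem_biUnion]
  constructor
  · rintro ⟨a, _, h⟩
    obtain ⟨t, ht, rfl⟩ := mem_image.1 h
    exact Finset.mem_Ico.1 ht
  · intro h
    exact ⟨x.1, mem_univ _, mem_image.2 ⟨x.2, Finset.mem_Ico.2 h, rfl⟩⟩

/-- the points of `w` on the segment `a` -/
def slice (w : Finset (κ × ℤ)) (a : κ) : Finset ℤ := (w.filter fun x => x.1 = a).image Prod.snd

omit [Fintype κ] in
lemma mem_slice {w : Finset (κ × ℤ)} {a : κ} {t : ℤ} : t ∈ slice w a ↔ (a, t) ∈ w := by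
  unfold slice
  rw [mem_image]
  constructor
  · rintro ⟨x, hx, rfl⟩
    obtain ⟨h1, h2⟩ := mem_filter.1 hx
    subst h2
    exact h1
  · intro h
    exact ⟨(a, t), mem_filter.2 ⟨h, rfl⟩, rfl⟩

omit [Fintype κ] in
lemma slice_inj {w : Finset (κ × ℤ)} {a : κ} :
    Set.InjOn Prod.snd ((w.filter fun x => x.1 = a : Finset (κ × ℤ)) : Set (κ × ℤ)) := by
  rintro ⟨x1, x2⟩ hx ⟨y1, y2⟩ hy h
  have h1 := (mem_filter.1 (mem_coe.1 hx)).2
  have h2 := (mem_filter.1 (mem_coe.1 hy)).2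
  simp only at h h1 h2
  rw [h, h1, h2]

lemma card_slices (w : Finset (κ × ℤ)) : ∑ a, (slice w a).card = w.card := by
  rw [Finset.card_eq_sum_card_fiberwise (f := Prod.fst) (t := univ) (fun x _ => mem_univ _)]
  refine sum_congr rfl fun a _ => ?_
  unfold slice
  rw [card_image_of_injOn slice_inj]

lemma prod_slices {M : Type*} [CommMonoid M] (w : Finset (κ × ℤ)) (f : κ → ℤ → M) :
    ∏ x ∈ w, f x.1 x.2 = ∏ a, ∏ t ∈ slice w a, f a t := by
  rw [← Finset.prod_fiberwise_of_maps_to (g := Prod.fst) (t := univ) (fun x _ => mem_univ _)]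
  refine prod_congr rfl fun a _ => ?_
  unfold slice
  rw [prod_image slice_inj]
  refine prod_congr rfl fun x hx => ?_
  rw [(mem_filter.1 hx).2]

/-- distance of the point `x` of `w` to the other points of `w` on its segment and to the ends -/
noncomputable def gw (N : κ → ℕ) (w : Finset (κ × ℤ)) (x : κ × ℤ) : ℤ :=
  gap1 (N x.1) (slice w x.1) x.2

omit [Fintype κ] in
lemma gw_le_of_mem {N : κ → ℕ} {w : Finset (κ × ℤ)} {a : κ} {t s : ℤ} (hs : (a, s) ∈ w)
    (hne : s ≠ t) : gw N w (a, t) ≤ |t - s| :=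
  gap1_le_of_mem (mem_slice.2 hs) hne

/-- **(W5)**: the sum over the sets of `j` wall points. -/
theorem wall_sum (j : ℕ) {N : κ → ℕ} {M : ℕ} (hM : ∀ a, N a ≤ M) :
    ∑ w ∈ powersetCard j (Wp N), ∏ x ∈ w, (cr (gw N w x : ℝ))⁻¹ ≤
      ((j + 1) * 6 ^ j) ^ Fintype.card κ * (cr ((M + 1 : ℕ) : ℝ) ^ 2) ^ j := by
  classical
  set ρ : ℝ := cr ((M + 1 : ℕ) : ℝ) ^ 2 with hρ
  have hMpos : (0 : ℝ) < ((M + 1 : ℕ) : ℝ) := by positivity
  have hρ0 : 0 < ρ := pow_pos (cr_pos hMpos) 2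
  set F : κ → Finset ℤ → ℝ := fun a v =>
    (ρ⁻¹) ^ v.card * ∏ t ∈ v, (cr (gap1 (N a : ℤ) v t : ℝ))⁻¹ with hF
  set V : κ → Finset (Finset ℤ) := fun a =>
    (Finset.Ico (0 : ℤ) (N a)).powerset.filter fun v => v.card ≤ j with hV
  have hF0 : ∀ a, ∀ v ∈ V a, 0 ≤ F a v := by
    intro a v hv
    rw [hV] at hv
    have hv1 := mem_powerset.1 (mem_filter.1 hv).1
    refine mul_nonneg (pow_nonneg (inv_nonneg.2 hρ0.le) _) (prod_nonneg fun t ht => ?_)
    refine inv_nonneg.2 (cr_nonneg ?_)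
    have h1 := Finset.mem_Ico.1 (hv1 ht)
    have := gap1_pos (v := v) h1.1 h1.2
    exact_mod_cast (by omega : (0 : ℤ) ≤ _)
  -- the terms
  have hterm : ∀ w ∈ powersetCard j (Wp N), ∏ x ∈ w, (cr (gw N w x : ℝ))⁻¹ =
      ρ ^ j * ∏ a, F a (slice w a) := by
    intro w hw
    have hcard := (mem_powersetCard.1 hw).2
    unfold gw
    rw [prod_slices w (fun a t => (cr (gap1 (N a : ℤ) (slice w a) t : ℝ))⁻¹)]
    rw [hF]
    simp only
    rw [prod_mul_distrib, prod_pow_eq_pow_sum, card_slices, hcard, ← mul_assoc, ← mul_pow,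
      mul_inv_cancel₀ hρ0.ne', one_pow, one_mul]
  rw [sum_congr rfl hterm, ← mul_sum]
  -- the injection
  have hinj : Set.InjOn (fun w : Finset (κ × ℤ) => fun a => slice w a)
      (powersetCard j (Wp N) : Set (Finset (κ × ℤ))) := by
    intro w _ w' _ h
    ext ⟨a, t⟩
    rw [← mem_slice, ← mem_slice]
    have := congrFun h a
    simp only at this
    rw [this]
  have step : ∑ w ∈ powersetCard j (Wp N), ∏ a, F a (slice w a) ≤
      ∑ ψ ∈ Fintype.piFinset V, ∏ a, F a (ψ a) := by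
    rw [← sum_image (f := fun ψ : κ → Finset ℤ => ∏ a, F a (ψ a)) hinj]
    refine sum_le_sum_of_subset_of_nonneg ?_ fun ψ hψ _ =>
      prod_nonneg fun a _ => hF0 a _ (Fintype.mem_piFinset.1 hψ a)
    intro ψ hψ
    obtain ⟨w, hw, rfl⟩ := mem_image.1 hψ
    obtain ⟨hw1, hw2⟩ := mem_powersetCard.1 hw
    rw [Fintype.mem_piFinset]
    intro a
    rw [hV]
    refine mem_filter.2 ⟨mem_powerset.2 fun t ht => ?_, ?_⟩
    · exact Finset.mem_Ico.2 (mem_Wp.1 (hw1 (mem_slice.1 ht)))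
    · rw [← hw2, ← card_slices w]
      exact single_le_sum (f := fun a => (slice w a).card) (fun _ _ => Nat.zero_le _) (mem_univ a)
  have hseg : ∀ a, ∑ v ∈ V a, F a v ≤ (j + 1) * 6 ^ j := by
    intro a
    have e1 : V a = (range (j + 1)).biUnion fun m => powersetCard m (Finset.Ico (0 : ℤ) (N a)) := by
      ext v
      rw [hV, mem_filter, mem_powerset, mem_biUnion]
      constructor
      · rintro ⟨h1, h2⟩
        exact ⟨v.card, mem_range.2 (by omega), mem_powersetCard.2 ⟨h1, rfl⟩⟩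
      · rintro ⟨m, hm, h⟩
        obtain ⟨h1, h2⟩ := mem_powersetCard.1 h
        exact ⟨h1, by rw [h2]; have := mem_range.1 hm; omega⟩
    rw [e1, sum_biUnion (by
      intro m _ m' _ hne
      rw [Function.onFun, disjoint_left]
      intro v h1 h2
      exact hne ((mem_powersetCard.1 h1).2.symm.trans (mem_powersetCard.1 h2).2))]
    have h1 : ∀ m ∈ range (j + 1), ∑ v ∈ powersetCard m (Finset.Ico (0 : ℤ) (N a)), F a v ≤ 6 ^ j := by
      intro m hm
      have hm' := mem_range.1 hm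
      have e2 : ∑ v ∈ powersetCard m (Finset.Ico (0 : ℤ) (N a)), F a v = (ρ⁻¹) ^ m *
          ∑ v ∈ powersetCard m (Finset.Ico (0 : ℤ) (N a)), ∏ t ∈ v, (cr (gap1 (N a : ℤ) v t : ℝ))⁻¹ := by
        rw [mul_sum]
        refine sum_congr rfl fun v hv => ?_
        rw [hF]
        simp only
        rw [(mem_powersetCard.1 hv).2]
      rw [e2]
      have hna : (0 : ℝ) ≤ ((N a + 1 : ℕ) : ℝ) := by positivity
      have hle : cr ((N a + 1 : ℕ) : ℝ) ^ 2 ≤ ρ := by
        rw [hρ]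
        refine pow_le_pow_left₀ (cr_nonneg hna) (cr_mono hna ?_) 2
        exact_mod_cast (by have := hM a; omega : N a + 1 ≤ M + 1)
      have h2 := wall1 (N a) m
      have h3 : (6 * cr ((N a + 1 : ℕ) : ℝ) ^ 2) ^ m ≤ (6 * ρ) ^ m :=
        pow_le_pow_left₀ (mul_nonneg (by norm_num) (sq_nonneg _)) (by linarith) m
      calc (ρ⁻¹) ^ m * ∑ v ∈ powersetCard m (Finset.Ico (0 : ℤ) (N a)),
              ∏ t ∈ v, (cr (gap1 (N a : ℤ) v t : ℝ))⁻¹
          ≤ (ρ⁻¹) ^ m * (6 * ρ) ^ m :=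
            mul_le_mul_of_nonneg_left (h2.trans h3) (pow_nonneg (inv_nonneg.2 hρ0.le) _)
        _ = 6 ^ m := by
            rw [← mul_pow]
            congr 1
            field_simp
        _ ≤ 6 ^ j := pow_le_pow_right₀ (by norm_num) (by omega)
    refine (sum_le_sum h1).trans (le_of_eq ?_)
    rw [sum_const, card_range, nsmul_eq_mul]
    push_cast
    ring
  have hfin : ∑ ψ ∈ Fintype.piFinset V, ∏ a, F a (ψ a) ≤
      (((j : ℝ) + 1) * 6 ^ j) ^ Fintype.card κ := by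
    rw [← Finset.prod_univ_sum V F]
    refine (prod_le_prod (fun a _ => sum_nonneg fun v hv => hF0 a v hv) fun a _ => hseg a).trans
      (le_of_eq ?_)
    rw [prod_const, card_univ]
  calc ρ ^ j * ∑ w ∈ powersetCard j (Wp N), ∏ a, F a (slice w a)
      ≤ ρ ^ j * (((j : ℝ) + 1) * 6 ^ j) ^ Fintype.card κ :=
        mul_le_mul_of_nonneg_left (step.trans hfin) (pow_nonneg hρ0.le _)
    _ = _ := mul_comm _ _

end Pool.Agent.H46.G1
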