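import Mathlib
import Pool.Agent.H46.G1.WGeo
import Pool.Agent.H46.G1.WSum
import Pool.Agent.H13.R45.Fam

set_option autoImplicit false
open Finset

/-! # The ties of the environments `XT O j` (R45)

`e ∈ TiL h j` : `e = lt (-1, y)`, `y` even, `j < y < h`, wall vertex `(0, y)`; `e ∈ TiR w j` :
`e = lt (w, y)`, `y` odd, `-1 ≤ y < j - 1`, wall vertex `(w, y + 1)`. `idx` : number of a tie on its
segment; `gD w h j A e` : distance of `e` to the other ties of `A` and to the ends of the segment (in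
numbers of ties); radius `gD / K`; `Bt` : the half box, `Qt` : the event that the wall cluster of the tie
reaches the boundary of the half box. -/

namespace Pool.Agent.H46.G1

open Pool.Agent.H75.Perc Pool.Agent.H75.TwoArm Pool.Agent.H75.Four Pool.Agent.H69.Q1
open Pool.Agent.Q1 Pool.Agent.H99.NC Pool.Agent.H49.Perc
open Pool.Agent.H39.Q1 (gm lm lm_apply hg mem_BRz sgb)
open Pool.Agent.H60.Q1 Pool.Agent.H33.Q1
open Pool.Agent.H74.R45 Pool.Agent.H13.R45
open Pool.Agent.Q1.M6b (cr)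

variable {w h j x y x' y' K r : ℤ} {A ω : Finset (ℤ × ℤ)} {e : ℤ × ℤ}

/-- orientation of the wall of a tie -/
def eps (e : ℤ × ℤ) : Bool × Bool := if (tt e).1 = -1 then (false, false) else (true, true)

/-- wall vertex of a tie -/
def wv (e : ℤ × ℤ) : ℤ × ℤ := if (tt e).1 = -1 then pt 1 0 e else pt 0 1 e

/-- number of a tie on its segment -/
def idx (j : ℤ) (e : ℤ × ℤ) : Bool × ℤ :=
  if (tt e).1 = -1 then (true, ((tt e).2 - j - 2) / 2) else (false, ((tt e).2 + 1) / 2)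

/-- numbers of ties -/
def Nt (h j : ℤ) (b : Bool) : ℕ := if b then ((h - j) / 2 - 1).toNat else (j / 2).toNat

/-- distance of the tie `e` to the other ties of `A` and to the ends of its segment -/
noncomputable def gD (h j : ℤ) (A : Finset (ℤ × ℤ)) (e : ℤ × ℤ) : ℤ :=
  gw (Nt h j) (A.image (idx j)) (idx j e)

/-- half box of a tie -/
noncomputable def Bt (K h j : ℤ) (A : Finset (ℤ × ℤ)) (e : ℤ × ℤ) : Finset (ℤ × ℤ) :=
  HBx true (eps e) (wv e) (gD h j A e / K)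

/-- the wall cluster of the tie reaches the boundary of the half box -/
def Qt (K h j : ℤ) (A : Finset (ℤ × ℤ)) (e : ℤ × ℤ) (ξ : Finset (ℤ × ℤ)) : Prop :=
  1 ≤ gD h j A e / K → P1 true (eps e) (wv e) (gD h j A e / K) ξ

lemma Qt_local : Qt K h j A e ω ↔ Qt K h j A e (ω ∩ Bt K h j A e) := by
  unfold Qt Bt
  rw [P1_local]

/-! ### coordinates -/

lemma eps_L : eps (lt (-1, y)) = (false, false) := by
  unfold eps; rw [tt_lt, if_pos rfl]

lemma eps_R (hw : 0 ≤ w) : eps (lt (w, y)) = (true, true) := by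
  unfold eps; rw [tt_lt, if_neg (by simp only; omega)]

lemma wv_L : wv (lt (-1, y)) = gp (0, y) := by
  unfold wv; rw [tt_lt, if_pos rfl, pt_lt]; congr 2; ring

lemma wv_R (hw : 0 ≤ w) : wv (lt (w, y)) = gp (w, y + 1) := by
  unfold wv; rw [tt_lt, if_neg (by simp only; omega), pt_lt]; congr 2; ring

lemma idx_L : idx j (lt (-1, y)) = (true, (y - j - 2) / 2) := by
  unfold idx; rw [tt_lt, if_pos rfl]

lemma idx_R (hw : 0 ≤ w) : idx j (lt (w, y)) = (false, (y + 1) / 2) := by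
  unfold idx; rw [tt_lt, if_neg (by simp only; omega)]

lemma lm_ff (l : ℤ × ℤ) : lm true (false, false) l = l := by
  rw [lm_apply]
  unfold gm Pool.Agent.H39.Q1.tc sgb
  refine Prod.ext ?_ ?_ <;> simp

lemma lm_tt (l : ℤ × ℤ) : lm true (true, true) l = -l := by
  rw [lm_apply]
  unfold gm Pool.Agent.H39.Q1.tc sgb
  refine Prod.ext ?_ ?_ <;> simp

lemma gm_ff (l : ℤ × ℤ) : gm (false, false) l = l := by
  unfold gm sgb
  refine Prod.ext ?_ ?_ <;> simp

lemma gm_tt (l : ℤ × ℤ) : gm (true, true) l = -l := by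
  unfold gm sgb
  refine Prod.ext ?_ ?_ <;> simp

/-- labels of the half box, left wall -/
lemma mem_HBL (hy : y % 2 = 0) : lt (x', y') ∈ HBx true (eps (lt (-1, y))) (wv (lt (-1, y))) r ↔
    0 ≤ x' ∧ (-(2 * r) ≤ x' - (y' - y) ∧ x' - (y' - y) ≤ 2 * r) ∧
      (-(2 * r) ≤ x' + 1 + (y' - y) ∧ x' + 1 + (y' - y) ≤ 2 * r) := by
  rw [mem_HBx, eps_L, wv_L, lm_ff, gm_ff, mem_HL]
  unfold lt gp
  simp only
  omega

/-- labels of the half box, right wall -/
lemma mem_HBR (hw : 0 ≤ w) (hy : (w + y) % 2 = 1) :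
    lt (x', y') ∈ HBx true (eps (lt (w, y))) (wv (lt (w, y))) r ↔
    x' < w ∧ (-(2 * r) ≤ (y' - y) + (w - 1 - x') ∧ (y' - y) + (w - 1 - x') ≤ 2 * r) ∧
      (-(2 * r) ≤ (w - x') - (y' - y) ∧ (w - x') - (y' - y) ≤ 2 * r) := by
  rw [mem_HBx, eps_R hw, wv_R hw, lm_tt, gm_tt, mem_HL]
  unfold lt gp
  simp only [Prod.fst_neg, Prod.snd_neg]
  omega

/-- labels of the full box, left wall -/
lemma mem_BL (hy : y % 2 = 0) :
    lm true (eps (lt (-1, y))) (lt (x', y')) ∈ BR (gm (eps (lt (-1, y))) (wv (lt (-1, y)))) r ↔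
    (-(2 * r) ≤ x' - (y' - y) ∧ x' - (y' - y) ≤ 2 * r) ∧
      (-(2 * r) ≤ x' + 1 + (y' - y) ∧ x' + 1 + (y' - y) ≤ 2 * r) := by
  rw [eps_L, wv_L, lm_ff, gm_ff, mem_BRz]
  unfold lt gp
  simp only
  omega

/-- labels of the full box, right wall -/
lemma mem_BRt (hw : 0 ≤ w) (hy : (w + y) % 2 = 1) :
    lm true (eps (lt (w, y))) (lt (x', y')) ∈ BR (gm (eps (lt (w, y))) (wv (lt (w, y)))) r ↔
    (-(2 * r) ≤ (y' - y) + (w - 1 - x') ∧ (y' - y) + (w - 1 - x') ≤ 2 * r) ∧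
      (-(2 * r) ≤ (w - x') - (y' - y) ∧ (w - x') - (y' - y) ≤ 2 * r) := by
  rw [eps_R hw, wv_R hw, lm_tt, gm_tt, mem_BRz]
  unfold lt gp
  simp only [Prod.fst_neg, Prod.snd_neg]
  omega

lemma hg_L (hy : y % 2 = 0) :
    hg (gm (eps (lt (-1, y))) (wv (lt (-1, y)))) (lm true (eps (lt (-1, y))) (lt (x', y'))) =
      2 * x' + 1 := by
  rw [eps_L, wv_L, lm_ff, gm_ff]
  unfold hg lt gp
  simp only
  omega

lemma hg_R (hw : 0 ≤ w) (hy : (w + y) % 2 = 1) :
    hg (gm (eps (lt (w, y))) (wv (lt (w, y)))) (lm true (eps (lt (w, y))) (lt (x', y'))) =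
      2 * (w - x') - 1 := by
  rw [eps_R hw, wv_R hw, lm_tt, gm_tt]
  unfold hg lt gp
  simp only [Prod.fst_neg, Prod.snd_neg]
  omega

lemma tie_L (hy : y % 2 = 0) : lm true (eps (lt (-1, y))) (lt (-1, y)) =
    gm (eps (lt (-1, y))) (wv (lt (-1, y))) + gm (eps (lt (-1, y))) (wv (lt (-1, y))) - (1, 0) := by
  rw [eps_L, wv_L, lm_ff, gm_ff]
  unfold lt gp
  refine Prod.ext ?_ ?_ <;> simp only [Prod.fst_sub, Prod.snd_sub, Prod.fst_add, Prod.snd_add] <;>
    omega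

lemma tie_R (hw : 0 ≤ w) (hy : (w + y) % 2 = 1) : lm true (eps (lt (w, y))) (lt (w, y)) =
    gm (eps (lt (w, y))) (wv (lt (w, y))) + gm (eps (lt (w, y))) (wv (lt (w, y))) - (1, 0) := by
  rw [eps_R hw, wv_R hw, lm_tt, gm_tt]
  unfold lt gp
  refine Prod.ext ?_ ?_ <;> simp only [Prod.fst_sub, Prod.snd_sub, Prod.fst_add, Prod.snd_add,
    Prod.fst_neg, Prod.snd_neg] <;> omega

/-! ### the distance -/

/-- all ties of the environment `XT O j` (except of the floor and of the ceiling) -/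
noncomputable def Ti (w h j : ℤ) : Finset (ℤ × ℤ) := TiL h j ∪ TiR w j

lemma Ti_cases (he : e ∈ Ti w h j) : (∃ y, e = lt (-1, y) ∧ j < y ∧ y < h ∧ y % 2 = 0) ∨
    ∃ y, e = lt (w, y) ∧ -1 ≤ y ∧ y < j - 1 ∧ y % 2 = 1 := by
  unfold Ti at he
  rcases mem_union.1 he with he | he
  · obtain ⟨x, y, rfl⟩ := exists_lt (odd_TiL he)
    rw [mem_TiL] at he
    obtain ⟨rfl, h⟩ := he
    exact Or.inl ⟨y, rfl, h⟩
  · obtain ⟨x, y, rfl⟩ := exists_lt (odd_TiR he)
    rw [mem_TiR] at he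
    obtain ⟨rfl, h⟩ := he
    exact Or.inr ⟨y, rfl, h⟩

lemma mem_Ti_L (hw : 0 ≤ w) : lt (-1, y) ∈ Ti w h j ↔ j < y ∧ y < h ∧ y % 2 = 0 := by
  unfold Ti
  rw [mem_union, mem_TiL, mem_TiR]
  omega

lemma mem_Ti_R (hw : 0 ≤ w) : lt (w, y) ∈ Ti w h j ↔ -1 ≤ y ∧ y < j - 1 ∧ y % 2 = 1 := by
  unfold Ti
  rw [mem_union, mem_TiL, mem_TiR]
  omega

lemma idx_mem (hw : 0 ≤ w) (h2 : h % 2 = 0) (j2 : j % 2 = 0) (he : e ∈ Ti w h j) :
    idx j e ∈ Wp (Nt h j) := by
  rcases Ti_cases he with ⟨y, rfl, h3, h4, h5⟩ | ⟨y, rfl, h3, h4, h5⟩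
  · rw [idx_L, mem_Wp]
    unfold Nt
    simp only [if_true]
    omega
  · rw [idx_R hw, mem_Wp]
    unfold Nt
    simp only [Bool.false_eq_true, if_false]
    omega

lemma idx_inj (hw : 0 ≤ w) (j2 : j % 2 = 0) {e' : ℤ × ℤ} (he : e ∈ Ti w h j)
    (he' : e' ∈ Ti w h j) (hi : idx j e = idx j e') : e = e' := by
  rcases Ti_cases he with ⟨y, rfl, h3, h4, h5⟩ | ⟨y, rfl, h3, h4, h5⟩ <;>
    rcases Ti_cases he' with ⟨y', rfl, h3', h4', h5'⟩ | ⟨y', rfl, h3', h4', h5'⟩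
  · rw [idx_L, idx_L] at hi
    have := congrArg Prod.snd hi
    simp only at this
    have : y = y' := by omega
    rw [this]
  · rw [idx_L, idx_R hw] at hi
    exact absurd (congrArg Prod.fst hi) (by simp)
  · rw [idx_L, idx_R hw] at hi
    exact absurd (congrArg Prod.fst hi) (by simp)
  · rw [idx_R hw, idx_R hw] at hi
    have := congrArg Prod.snd hi
    simp only at this
    have : y = y' := by omega
    rw [this]

section dist

variable (hw : 0 ≤ w) (h2 : h % 2 = 0) (j2 : j % 2 = 0) (hA : A ⊆ Ti w h j)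

include hw h2 j2 hA

lemma gD_pos (he : e ∈ A) : 1 ≤ gD h j A e := by
  have h1 := mem_Wp.1 (idx_mem hw h2 j2 (hA he))
  unfold gD gw
  exact gap1_pos h1.1 h1.2

lemma gD_L (he : lt (-1, y) ∈ A) : 1 ≤ gD h j A (lt (-1, y)) ∧
    2 * gD h j A (lt (-1, y)) ≤ y - j ∧ 2 * gD h j A (lt (-1, y)) ≤ h - y := by
  refine ⟨gD_pos hw h2 j2 hA he, ?_⟩
  have h1 := (mem_Ti_L hw).1 (hA he)
  have h3 := mem_Wp.1 (idx_mem hw h2 j2 (hA he))
  unfold gD gw
  rw [idx_L] at h3 ⊢
  simp only at h3 ⊢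
  have h4 := gap1_le_left (N := (Nt h j true : ℤ)) (v := slice (A.image (idx j)) true)
    (t := (y - j - 2) / 2) (by omega)
  have h5 := gap1_le_right (N := (Nt h j true : ℤ)) (v := slice (A.image (idx j)) true)
    (t := (y - j - 2) / 2) (by omega)
  have h6 : (Nt h j true : ℤ) ≤ (h - j) / 2 - 1 := by
    unfold Nt; simp only [if_true]; omega
  omega

lemma gD_R (he : lt (w, y) ∈ A) : 1 ≤ gD h j A (lt (w, y)) ∧
    2 * gD h j A (lt (w, y)) ≤ y + 3 ∧ 2 * gD h j A (lt (w, y)) ≤ j - 1 - y := by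
  refine ⟨gD_pos hw h2 j2 hA he, ?_⟩
  have h1 := (mem_Ti_R hw).1 (hA he)
  have h3 := mem_Wp.1 (idx_mem hw h2 j2 (hA he))
  unfold gD gw
  rw [idx_R hw] at h3 ⊢
  simp only at h3 ⊢
  have h4 := gap1_le_left (N := (Nt h j false : ℤ)) (v := slice (A.image (idx j)) false)
    (t := (y + 1) / 2) (by omega)
  have h5 := gap1_le_right (N := (Nt h j false : ℤ)) (v := slice (A.image (idx j)) false)
    (t := (y + 1) / 2) (by omega)
  have h6 : (Nt h j false : ℤ) ≤ j / 2 := by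
    unfold Nt; simp only [Bool.false_eq_true, if_false]; omega
  omega

lemma gD_LL (he : lt (-1, y) ∈ A) (he' : lt (-1, y') ∈ A) (hne : y ≠ y') :
    2 * gD h j A (lt (-1, y)) ≤ |y - y'| := by
  have h1 := (mem_Ti_L hw).1 (hA he)
  have h1' := (mem_Ti_L hw).1 (hA he')
  have h3 : gD h j A (lt (-1, y)) ≤ |(y - j - 2) / 2 - (y' - j - 2) / 2| := by
    unfold gD
    rw [idx_L]
    refine gw_le_of_mem ?_ (by omega)
    rw [← idx_L (j := j)]
    exact mem_image_of_mem _ he'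
  rw [le_abs] at h3 ⊢
  omega

lemma gD_RR (he : lt (w, y) ∈ A) (he' : lt (w, y') ∈ A) (hne : y ≠ y') :
    2 * gD h j A (lt (w, y)) ≤ |y - y'| := by
  have h1 := (mem_Ti_R hw).1 (hA he)
  have h1' := (mem_Ti_R hw).1 (hA he')
  have h3 : gD h j A (lt (w, y)) ≤ |(y + 1) / 2 - (y' + 1) / 2| := by
    unfold gD
    rw [idx_R hw]
    refine gw_le_of_mem ?_ (by omega)
    rw [← idx_R (j := j) hw]
    exact mem_image_of_mem _ he'
  rw [le_abs] at h3 ⊢
  omega

end dist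

/-! ### the boxes -/

lemma rad_le {D : ℤ} (hK : 1 ≤ K) (hD : 0 ≤ D) {k : ℤ} (hk : 0 ≤ k) (hkK : k ≤ K) :
    0 ≤ D / K ∧ k * (D / K) ≤ D := by
  have h1 : 0 ≤ D / K := Int.ediv_nonneg hD (by omega)
  refine ⟨h1, ?_⟩
  have h2 := Int.mul_ediv_self_le (x := D) (k := K) (by omega)
  nlinarith

section box

variable (hw : 2 ≤ w) (w2 : w % 2 = 0) (h2 : h % 2 = 0) (j2 : j % 2 = 0) (hA : A ⊆ Ti w h j)
  (hK : 4 ≤ K)

include hw w2 h2 j2 hA hK

/-- labels of the box of a tie of the left wall -/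
lemma mem_Bt_L (he : lt (-1, y) ∈ A) (hm : lt (x', y') ∈ Bt K h j A (lt (-1, y))) :
    0 ≤ x' ∧ 2 * x' ≤ gD h j A (lt (-1, y)) ∧ 2 * |y' - y| ≤ gD h j A (lt (-1, y)) ∧
      3 * x' ≤ y' - j ∧ 3 * x' ≤ h - 1 - y' ∧ j ≤ y' ∧ y' < h := by
  have h1 := (mem_Ti_L (by omega)).1 (hA he)
  obtain ⟨h3, h4, h5⟩ := gD_L (by omega) h2 j2 hA he
  unfold Bt at hm
  rw [mem_HBL h1.2.2] at hm
  obtain ⟨h6, h7⟩ := rad_le (K := K) (D := gD h j A (lt (-1, y))) (by omega) (by omega)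
    (show (0 : ℤ) ≤ 4 by norm_num) hK
  generalize gD h j A (lt (-1, y)) / K = r at *
  generalize gD h j A (lt (-1, y)) = D at *
  refine ⟨hm.1, by omega, ?_, by omega, by omega, by omega, by omega⟩
  have : |y' - y| ≤ 2 * r := abs_le.2 (by omega)
  omega

/-- labels of the box of a tie of the right wall -/
lemma mem_Bt_R (he : lt (w, y) ∈ A) (hm : lt (x', y') ∈ Bt K h j A (lt (w, y))) :
    x' < w ∧ 2 * (w - 1 - x') ≤ gD h j A (lt (w, y)) ∧ 2 * |y' - y| ≤ gD h j A (lt (w, y)) ∧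
      3 * (w - 1 - x') ≤ y' + 2 ∧ 3 * (w - 1 - x') ≤ j - 2 - y' ∧ -1 ≤ y' ∧ y' < j - 1 := by
  have h1 := (mem_Ti_R (by omega)).1 (hA he)
  obtain ⟨h3, h4, h5⟩ := gD_R (by omega) h2 j2 hA he
  unfold Bt at hm
  rw [mem_HBR (by omega) (by omega)] at hm
  obtain ⟨h6, h7⟩ := rad_le (K := K) (D := gD h j A (lt (w, y))) (by omega) (by omega)
    (show (0 : ℤ) ≤ 4 by norm_num) hK
  generalize gD h j A (lt (w, y)) / K = r at *
  generalize gD h j A (lt (w, y)) = D at *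
  refine ⟨hm.1, by omega, ?_, by omega, by omega, by omega, by omega⟩
  have : |y' - y| ≤ 2 * r := abs_le.2 (by omega)
  omega

/-- the radius is small compared to the width -/
lemma rad_w (hj0 : 0 ≤ j) (hj1 : j ≤ h) (hKw : h ≤ K * w) (he : e ∈ A) :
    4 * (gD h j A e / K) ≤ w := by
  have key : ∀ D : ℤ, 1 ≤ D → 4 * D ≤ h + 2 → 4 * (D / K) ≤ w := by
    intro D hD hD2
    have h3 := Int.mul_ediv_self_le (x := D) (k := K) (by omega)
    by_contra hcon
    have h4 : K * (w + 1) ≤ K * (4 * (D / K)) := by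
      refine mul_le_mul_of_nonneg_left (by omega) (by omega)
    nlinarith
  rcases Ti_cases (hA he) with ⟨y, rfl, h3, h4, h5⟩ | ⟨y, rfl, h3, h4, h5⟩
  · obtain ⟨g1, g2, g3⟩ := gD_L (by omega) h2 j2 hA he
    exact key _ g1 (by omega)
  · obtain ⟨g1, g2, g3⟩ := gD_R (by omega) h2 j2 hA he
    exact key _ g1 (by omega)

lemma odd_HBx {c : Bool} {ε : Bool × Bool} {v l : ℤ × ℤ} (hl : l ∈ HBx c ε v r) :
    (l.1 + l.2) % 2 = 1 := by
  rw [mem_HBx, mem_HL, lm_apply] at hl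
  have h1 := hl.1.2.2
  unfold gm Pool.Agent.H39.Q1.tc at h1
  rcases Pool.Agent.H39.Q1.sgb_cases ε.1 with g1 | g1 <;>
    rcases Pool.Agent.H39.Q1.sgb_cases ε.2 with g2 | g2 <;> rw [g1, g2] at h1 <;>
    split_ifs at h1 <;> simp only [Prod.fst_add, Prod.snd_add] at h1 <;> omega

/-- the boxes are in the bulk -/
lemma Bt_sub (hj0 : 0 ≤ j) (hj1 : j ≤ h) (hKw : h ≤ K * w) (he : e ∈ A) :
    Bt K h j A e ⊆ RT 0 w j h ∪ RT 0 w (-1) (j - 1) := by
  intro l hl
  obtain ⟨x', y', rfl⟩ := exists_lt (odd_HBx hw w2 h2 j2 hA hK hl)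
  have h4 := rad_w hw w2 h2 j2 hA hK hj0 hj1 hKw he
  rw [mem_union, lt_mem_RT, lt_mem_RT]
  rcases Ti_cases (hA he) with ⟨y, rfl, g3, g4, g5⟩ | ⟨y, rfl, g3, g4, g5⟩
  · left
    have h5 := mem_Bt_L hw w2 h2 j2 hA hK he hl
    unfold Bt at hl
    rw [mem_HBL g5] at hl
    omega
  · right
    have h5 := mem_Bt_R hw w2 h2 j2 hA hK he hl
    unfold Bt at hl
    rw [mem_HBR (by omega) (by omega)] at hl
    omega

/-- the boxes are disjoint -/
lemma Bt_disj {e' : ℤ × ℤ} (he : e ∈ A) (he' : e' ∈ A) (hne : e ≠ e') :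
    Disjoint (Bt K h j A e) (Bt K h j A e') := by
  rw [disjoint_left]
  intro l hl hl'
  obtain ⟨x', y', rfl⟩ := exists_lt (odd_HBx hw w2 h2 j2 hA hK hl)
  rcases Ti_cases (hA he) with ⟨y, rfl, g3, g4, g5⟩ | ⟨y, rfl, g3, g4, g5⟩ <;>
    rcases Ti_cases (hA he') with ⟨y1, rfl, g3', g4', g5'⟩ | ⟨y1, rfl, g3', g4', g5'⟩
  · have h5 := (mem_Bt_L hw w2 h2 j2 hA hK he hl).2.2.1
    have h6 := (mem_Bt_L hw w2 h2 j2 hA hK he' hl').2.2.1
    have h7 : y ≠ y1 := fun h => hne (by rw [h])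
    have h8 := gD_LL (by omega) h2 j2 hA he he' h7
    have h9 := gD_LL (by omega) h2 j2 hA he' he h7.symm
    have h10 := (gD_L (by omega) h2 j2 hA he).1
    have h11 := abs_sub_le y y' y1
    rw [abs_sub_comm y1 y] at h9
    rw [abs_sub_comm y y'] at h11
    omega
  · have h5 := mem_Bt_L hw w2 h2 j2 hA hK he hl
    have h6 := mem_Bt_R hw w2 h2 j2 hA hK he' hl'
    omega
  · have h5 := mem_Bt_R hw w2 h2 j2 hA hK he hl
    have h6 := mem_Bt_L hw w2 h2 j2 hA hK he' hl'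
    omega
  · have h5 := (mem_Bt_R hw w2 h2 j2 hA hK he hl).2.2.1
    have h6 := (mem_Bt_R hw w2 h2 j2 hA hK he' hl').2.2.1
    have h7 : y ≠ y1 := fun h => hne (by rw [h])
    have h8 := gD_RR (by omega) h2 j2 hA he he' h7
    have h9 := gD_RR (by omega) h2 j2 hA he' he h7.symm
    have h10 := (gD_R (by omega) h2 j2 hA he).1
    have h11 := abs_sub_le y y' y1
    rw [abs_sub_comm y1 y] at h9
    rw [abs_sub_comm y y'] at h11
    omega

/-- the boxes are near the walls, away from the row (helper30's `Sep`) -/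
lemma Bt_sep (he : e ∈ A) (hm : lt (x', y') ∈ Bt K h j A e) :
    (2 * x' ≤ |y' - (j - 1)| + 2 ∧ 2 * x' ≤ |y' - j| + 2) ∨
    (2 * (w - x') ≤ |y' - (j - 1)| + 2 ∧ 2 * (w - x') ≤ |y' - j| + 2) := by
  have a1 := le_abs_self (y' - (j - 1))
  have a2 := le_abs_self (y' - j)
  have a3 := neg_abs_le (y' - (j - 1))
  have a4 := neg_abs_le (y' - j)
  rcases Ti_cases (hA he) with ⟨y, rfl, g3, g4, g5⟩ | ⟨y, rfl, g3, g4, g5⟩
  · have h5 := mem_Bt_L hw w2 h2 j2 hA hK he hm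
    left
    omega
  · have h5 := mem_Bt_R hw w2 h2 j2 hA hK he hm
    right
    omega

end box

/-! ### toggles -/

lemma plab_grid (c : ℤ × ℤ) : ∃ x' y', plab c = lt (x', y') ∧
    (x' = (vx c).1 + (vx c).2 ∨ x' = (vx c).1 + (vx c).2 - 1) ∧
    (y' = (vx c).2 - (vx c).1 ∨ y' = (vx c).2 - (vx c).1 - 1) := by
  obtain ⟨a, b⟩ := c
  have ho : ((plab (a, b)).1 + (plab (a, b)).2) % 2 = 1 := by
    unfold plab; split_ifs <;> simp only <;> omega
  obtain ⟨x', y', h⟩ := exists_lt ho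
  refine ⟨x', y', h, ?_⟩
  unfold plab lt at h
  unfold vx
  simp only at h ⊢
  split_ifs at h <;> simp only [Prod.mk.injEq] at h <;> omega

section toggle

variable {O : Out w h} {h0 : 0 ≤ j} {h1 : j ≤ h} {j2 : j % 2 = 0} {c : ℤ × ℤ}

/-- **The toggle** for the ties of the environments `XT`. -/
theorem toggle_XT (hA : A ⊆ Ti w h j) (hK : 4 ≤ K) (hKw : h ≤ K * w) (he : e ∈ A)
    (hω : ω ⊆ ET w h j) (heω : e ∉ ω) (hoth : ∀ e' ∈ ω, e' ∈ Ti w h j → e' ∈ A)
    (hQ : ¬ Qt K h j A e ω) (hm0 : j - 1 ≤ (vx c).2 - (vx c).1) (hm1 : (vx c).2 - (vx c).1 ≤ j) :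
    (XT O j h0 h1 j2).incO ω c = (XT O j h0 h1 j2).incO (insert e ω) c := by
  have hw := O.hw
  have w2 := O.w2
  have h2 := O.h2
  unfold Qt at hQ
  push Not at hQ
  obtain ⟨hr, hP⟩ := hQ
  have h4 := rad_w hw w2 h2 j2 hA hK h0 h1 hKw he
  have hsub := Bt_sub hw w2 h2 j2 hA hK h0 h1 hKw he
  have heT : e ∈ ET w h j := by
    have := hA he
    unfold Ti at this
    rcases mem_union.1 this with h | h
    · exact TiL_sub O h0 h1 j2 h
    · exact TiR_sub O h0 h1 j2 h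
  have hdis := disj_ETWT O h0 h1
  have heW : e ∉ ω ∪ WT w h j O.Wo := by
    rw [mem_union, not_or]
    exact ⟨heω, disjoint_left.1 hdis heT⟩
  have hbulk : Disjoint (Bt K h j A e) (WT w h j O.Wo) := by
    rw [disjoint_left]
    intro l hl hl'
    have h5 := hsub hl
    obtain ⟨x', y', rfl⟩ := exists_lt (odd_HBx hw w2 h2 j2 hA hK hl)
    rw [mem_union, lt_mem_RT, lt_mem_RT] at h5
    unfold WT WJ at hl'
    rw [mem_union, mem_union, H74.R45.mem_WR, mem_OT (by omega) w2 h2 h0 h1 j2] at hl'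
    rcases hl' with (h6 | h6) | h6
    · omega
    · have := O.far _ _ h6
      omega
    · rcases Ti_cases (hA he) with ⟨y, rfl, g3, g4, g5⟩ | ⟨y, rfl, g3, g4, g5⟩
      · have h7 := mem_Bt_L hw w2 h2 j2 hA hK he hl
        omega
      · have h7 := mem_Bt_R hw w2 h2 j2 hA hK he hl
        omega
  obtain ⟨px, py, hp1, hp2, hp3⟩ := plab_grid O.c0
  have hroot := O.hroot
  rw [hp1] at hroot
  unfold GA at hroot
  rw [lt_mem_RT] at hroot
  rcases Ti_cases (hA he) with ⟨y, rfl, g3, g4, g5⟩ | ⟨y, rfl, g3, g4, g5⟩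
  · obtain ⟨k1, k2, k3⟩ := gD_L (by omega) h2 j2 hA he
    obtain ⟨k4, k5⟩ := rad_le (K := K) (D := gD h j A (lt (-1, y))) (by omega) (by omega)
      (show (0 : ℤ) ≤ 4 by norm_num) hK
    refine toggle_open (W := WT w h j O.Wo) (δ := (1, 0)) XT_planeLike hω heT heW (Or.inl rfl)
      (tie_L g5) hr ?_ hbulk hP ?_ ?_
    · intro l hl hbox hcon
      have hodd : (l.1 + l.2) % 2 = 1 := by
        rw [eps_L, lm_ff, mem_BRz] at hbox
        exact hbox.2.2
      obtain ⟨x', y', rfl⟩ := exists_lt hodd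
      rw [mem_BL g5] at hbox
      rw [hg_L g5] at hcon
      have hx : x' = -1 := by omega
      subst hx
      rcases mem_union.1 hl with hl | hl
      · have h5 := hω hl
        rw [mem_ET (by omega) w2 h2 h0 h1 j2, mem_EJ] at h5
        have h6 : lt (-1, y') ∈ Ti w h j := (mem_Ti_L (by omega)).2 (by omega)
        have h7 := hoth _ hl h6
        by_cases h8 : y = y'
        · subst h8; exact heω hl
        · have h9 := gD_LL (by omega) h2 j2 hA he h7 h8
          rw [le_abs] at h9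
          omega
      · unfold WT WJ at hl
        rw [mem_union, mem_union, H74.R45.mem_WR, mem_OT (by omega) w2 h2 h0 h1 j2] at hl
        rcases hl with (h6 | h6) | h6
        · omega
        · have := O.far _ _ h6
          omega
        · omega
    · intro hin hht
      rw [inR_iff, wv_L] at hin
      rw [eps_L, gm_ff, gm_ff, wv_L] at hht
      unfold hv at hht
      unfold gp at hin hht
      simp only [XT_c0] at hin hht
      omega
    · intro hin hht
      rw [inR_iff, wv_L] at hin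
      unfold gp at hin
      simp only at hin
      omega
  · obtain ⟨k1, k2, k3⟩ := gD_R (by omega) h2 j2 hA he
    obtain ⟨k4, k5⟩ := rad_le (K := K) (D := gD h j A (lt (w, y))) (by omega) (by omega)
      (show (0 : ℤ) ≤ 4 by norm_num) hK
    refine toggle_open (W := WT w h j O.Wo) (δ := (1, 0)) XT_planeLike hω heT heW (Or.inl rfl)
      (tie_R (by omega) (by omega)) hr ?_ hbulk hP ?_ ?_
    · intro l hl hbox hcon
      have hodd : (l.1 + l.2) % 2 = 1 := by
        rw [eps_R (by omega), lm_tt, mem_BRz] at hbox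
        have := hbox.2.2
        simp only [Prod.fst_neg, Prod.snd_neg] at this
        omega
      obtain ⟨x', y', rfl⟩ := exists_lt hodd
      rw [mem_BRt (by omega) (by omega)] at hbox
      rw [hg_R (by omega) (by omega)] at hcon
      have hx : x' = w := by omega
      subst hx
      rcases mem_union.1 hl with hl | hl
      · have h5 := hω hl
        rw [mem_ET (by omega) w2 h2 h0 h1 j2, mem_EJ] at h5
        have h6 : lt (x', y') ∈ Ti x' h j := (mem_Ti_R (by omega)).2 (by omega)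
        have h7 := hoth _ hl h6
        by_cases h8 : y = y'
        · subst h8; exact heω hl
        · have h9 := gD_RR (by omega) h2 j2 hA he h7 h8
          rw [le_abs] at h9
          omega
      · unfold WT WJ at hl
        rw [mem_union, mem_union, H74.R45.mem_WR, mem_OT (by omega) w2 h2 h0 h1 j2] at hl
        rcases hl with (h6 | h6) | h6
        · omega
        · have := O.far _ _ h6
          omega
        · omega
    · intro hin hht
      rw [inR_iff, wv_R (by omega)] at hin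
      rw [eps_R (by omega), gm_tt, gm_tt, wv_R (by omega)] at hht
      unfold hv at hht
      unfold gp at hin hht
      simp only [XT_c0, Prod.fst_neg, Prod.snd_neg] at hin hht
      omega
    · intro hin hht
      rw [inR_iff, wv_R (by omega)] at hin
      unfold gp at hin
      simp only at hin
      omega

end toggle

/-! ### probabilities and the sum over the sets of ties -/

/-- the probability that the wall cluster of the tie reaches the boundary of the half box -/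
theorem Qt_le : ∃ C : ℝ, 1 ≤ C ∧ ∀ (K h j : ℤ) (A : Finset (ℤ × ℤ)) (e : ℤ × ℤ), 1 ≤ K →
    1 ≤ gD h j A e → PrP (fun _ => (1 / 2 : ℝ)) (Bt K h j A e) (Qt K h j A e) ≤
      C * K * (cr (gD h j A e : ℝ))⁻¹ := by
  obtain ⟨C, hC, hP⟩ := P1_le_div
  exact ⟨C, hC, fun K h j A e hK hD => hP true (eps e) (wv e) (gD h j A e) K hD hK⟩

/-- **(d)** the sum over the sets of `l` ties -/
theorem sum_ties (hw : 0 ≤ w) (h2 : h % 2 = 0) (j2 : j % 2 = 0) (h0 : 0 ≤ j) (h1 : j ≤ h) (l : ℕ) :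
    ∑ A ∈ powersetCard l (Ti w h j), ∏ e ∈ A, (cr (gD h j A e : ℝ))⁻¹ ≤
      ((l + 1) * 6 ^ l) ^ 2 * (cr (h + 1 : ℝ) ^ 2) ^ l := by
  classical
  have hM : ∀ b : Bool, Nt h j b ≤ h.toNat := by
    intro b
    unfold Nt
    cases b <;> simp only [if_true, Bool.false_eq_true, if_false] <;> omega
  have h3 := wall_sum l hM
  have e1 : ((h.toNat + 1 : ℕ) : ℝ) = (h : ℝ) + 1 := by
    have : ((h.toNat : ℤ) : ℝ) = (h : ℝ) := by
      rw [Int.toNat_of_nonneg (by omega)]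
    push_cast
    have h4 : ((h.toNat : ℕ) : ℝ) = ((h.toNat : ℤ) : ℝ) := by push_cast; rfl
    rw [h4, this]
  rw [e1, Fintype.card_bool] at h3
  refine le_trans ?_ h3
  have hinj : Set.InjOn (fun A : Finset (ℤ × ℤ) => A.image (idx j))
      (powersetCard l (Ti w h j) : Set (Finset (ℤ × ℤ))) := by
    intro A hA B hB hAB
    have hA' := (mem_powersetCard.1 (mem_coe.1 hA)).1
    have hB' := (mem_powersetCard.1 (mem_coe.1 hB)).1
    simp only at hAB
    have key : ∀ {A B : Finset (ℤ × ℤ)}, A ⊆ Ti w h j → B ⊆ Ti w h j →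
        A.image (idx j) = B.image (idx j) → A ⊆ B := by
      intro A B hA hB hAB e he
      have h4 : idx j e ∈ B.image (idx j) := by rw [← hAB]; exact mem_image_of_mem _ he
      obtain ⟨e', he', h5⟩ := mem_image.1 h4
      rwa [← idx_inj hw j2 (hB he') (hA he) h5]
    exact Subset.antisymm (key hA' hB' hAB) (key hB' hA' hAB.symm)
  have hstep : ∑ A ∈ powersetCard l (Ti w h j), ∏ e ∈ A, (cr (gD h j A e : ℝ))⁻¹ =
      ∑ W ∈ (powersetCard l (Ti w h j)).image (fun A => A.image (idx j)),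
        ∏ x ∈ W, (cr (gw (Nt h j) W x : ℝ))⁻¹ := by
    rw [sum_image hinj]
    refine sum_congr rfl fun A hA => ?_
    have hA' := (mem_powersetCard.1 hA).1
    rw [prod_image fun a ha b hb hab => idx_inj hw j2 (hA' ha) (hA' hb) hab]
    rfl
  rw [hstep]
  refine sum_le_sum_of_subset_of_nonneg ?_ ?_
  · intro W hW
    obtain ⟨A, hA, rfl⟩ := mem_image.1 hW
    obtain ⟨hA1, hA2⟩ := mem_powersetCard.1 hA
    rw [mem_powersetCard]
    refine ⟨fun x hx => ?_, ?_⟩
    · obtain ⟨e, he, rfl⟩ := mem_image.1 hx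
      exact idx_mem hw h2 j2 (hA1 he)
    · rw [card_image_of_injOn fun a ha b hb hab => idx_inj hw j2 (hA1 ha) (hA1 hb) hab, hA2]
  · intro W hW _
    refine prod_nonneg fun x hx => inv_nonneg.2 (Pool.Agent.Q1.M6b.cr_nonneg ?_)
    have h4 := mem_Wp.1 ((mem_powersetCard.1 hW).1 hx)
    have h5 : 1 ≤ gw (Nt h j) W x := by
      unfold gw
      exact gap1_pos h4.1 h4.2
    exact_mod_cast (by omega : (0 : ℤ) ≤ gw (Nt h j) W x)

end Pool.Agent.H46.G1
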