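import Mathlib
import Pool.Agent.H46.G1.WTie
import Pool.Agent.Q1.M6b.Nest4
import Pool.Agent.H81.G1.Glu

set_option autoImplicit false
open Finset

/-! # The boxes of the ties in the glued configuration (`BoxGeo`, `OneType`)

`W` : open labels outside the random labels and the row (helper30's `WF`), `EU` : random labels above the
row, `L = z ∪ WGl w h j W EU` : the glued configuration. Left wall: box of a tie `lt (-1, y)` above the
row, shifted by `(1,-1)`; right wall: box of a tie `lt (w, y)` below the row. -/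

namespace Pool.Agent.H46.G1

open Pool.Agent.H75.Perc Pool.Agent.H75.TwoArm Pool.Agent.H75.Four Pool.Agent.H69.Q1
open Pool.Agent.Q1 Pool.Agent.H99.NC Pool.Agent.H49.Perc Pool.Agent.H19.Q1
open Pool.Agent.H60.Q1 Pool.Agent.H33.Q1 Pool.Agent.H34.Q1
open Pool.Agent.H74.R45 Pool.Agent.H13.R45 Pool.Agent.H30.Mid Pool.Agent.H81.G1
open Pool.Agent.Q1.M6b.Nest Pool.Agent.Q1.M6b.Gl
open Pool.Agent.H69.M6b (lbt)

variable {w h j x y x' y' K r Λ : ℤ} {A ω z W EL EU L : Finset (ℤ × ℤ)} {e v : ℤ × ℤ}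

/-! ### corners in the tile frame -/

/-- tile coordinates of the label, the vertex and the face of a corner -/
lemma corner_grid (c : ℤ × ℤ) : ∃ X Y, lab c = lt (X, Y) ∧
    ((vx c).1 + (vx c).2 = X ∨ (vx c).1 + (vx c).2 = X + 1) ∧
    ((vx c).2 - (vx c).1 = Y ∨ (vx c).2 - (vx c).1 = Y + 1) ∧
    ((fi c).1 + (fi c).2 - 1 = X ∨ (fi c).1 + (fi c).2 - 1 = X + 1) ∧
    ((fi c).2 - (fi c).1 = Y ∨ (fi c).2 - (fi c).1 = Y + 1) := by
  obtain ⟨a, b⟩ := c
  have ho : ((lab (a, b)).1 + (lab (a, b)).2) % 2 = 1 := Pool.Agent.H75.Perc.lab_odd _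
  obtain ⟨X, Y, h⟩ := exists_lt ho
  refine ⟨X, Y, h, ?_⟩
  unfold lab lt at h
  unfold vx fi
  simp only at h ⊢
  split_ifs at h <;> simp only [Prod.mk.injEq] at h <;> omega

/-- the label of a corner is near the corner -/
lemma lab_near (c : ℤ × ℤ) : |(lab c).1 - c.1| ≤ 1 ∧ |(lab c).2 - c.2| ≤ 1 := by
  unfold lab
  split_ifs <;> simp

/-- the strand around an isolated vertex -/
lemma isolated {O : Set (ℤ × ℤ)} (hO : O ∈ Lp L v) {c : ℤ × ℤ} (hc : c ∈ O)
    (hcl : ∀ d, vx d = vx c → lab d ∉ L) : v = vx c := by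
  obtain ⟨a, ha⟩ := hO.1
  have hfin := hO.2.1
  have horb := orbit_of_mem ha hfin hc
  have hvx : ∀ i : ℕ, vx ((nx L)^[i] c) = vx c := by
    intro i
    induction i with
    | zero => rfl
    | succ i ih =>
      rw [Function.iterate_succ_apply']
      have h1 := hcl _ ih
      generalize (nx L)^[i] c = d at ih h1
      unfold nx
      rw [if_neg h1, vx_nxC, ih]
  by_contra hne
  have hinv := inv_of_orbit ha hfin
  have h1 := (odd_iff_ixv hfin v).1 hO.2.2
  have h2 : ixv hfin.toFinset v = 0 := by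
    refine ixv_out hinv.tile (a := 2 * (vx c).1) (b := 2 * (vx c).1 + 1) (p := 2 * (vx c).2)
      (q := 2 * (vx c).2 + 1) ?_ ?_
    · intro d hd
      rw [Set.Finite.mem_toFinset, horb] at hd
      obtain ⟨i, rfl⟩ := hd
      have := hvx i
      unfold vx at this ⊢
      simp only [Prod.mk.injEq] at this
      simp only
      omega
    · by_contra hcon
      push Not at hcon
      exact hne (Prod.ext (by omega) (by omega))
  rw [h2] at h1
  exact zero_ne_one h1

/-- a strand of index one does not pass between a vertex and a face of index zero -/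
lemma no_corner {O : Set (ℤ × ℤ)} (hO : O ∈ Lp L v) {c : ℤ × ℤ} (hc : c ∈ O)
    (h1 : ixv hO.2.1.toFinset (vx c) = 0) (h2 : ixf hO.2.1.toFinset (fi c) = 0) : False := by
  obtain ⟨a, ha⟩ := hO.1
  have hinv := inv_of_orbit ha hO.2.1
  have h3 := ix_corner hinv.tile c
  rw [h1, h2] at h3
  unfold Pool.Agent.Q1.M6b.Nest.A at h3
  rw [if_pos ((Set.Finite.mem_toFinset _).2 hc), add_zero] at h3
  exact zero_ne_one h3

/-! ### Boxes, general form -/

/-- labels of the box of a tie of the left wall, in the glued configuration -/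
def BlL (K h j : ℤ) (A : Finset (ℤ × ℤ)) (e : ℤ × ℤ) : Set (ℤ × ℤ) :=
  {l | l - (1, -1) ∈ insert e (Bt K h j A e)}

/-- labels of the box of a tie of the right wall -/
def BlR (K h j : ℤ) (A : Finset (ℤ × ℤ)) (e : ℤ × ℤ) : Set (ℤ × ℤ) :=
  {l | l ∈ insert e (Bt K h j A e)}

/-- the other labels near a box of the left wall -/
def GnL (K h j : ℤ) (A : Finset (ℤ × ℤ)) (e : ℤ × ℤ) (E V : Finset (ℤ × ℤ)) : Set (ℤ × ℤ) :=
  {l | l ∈ E ∪ V ∧ l ∉ BlL K h j A e}

/-- the other labels near a box of the right wall -/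
def GnR (K h j : ℤ) (A : Finset (ℤ × ℤ)) (e : ℤ × ℤ) (V : Finset (ℤ × ℤ)) : Set (ℤ × ℤ) :=
  {l | l ∉ V ∧ l ∉ BlR K h j A e}

/-- centre of the box of a tie -/
def cen (e : ℤ × ℤ) : ℤ × ℤ := if (tt e).1 = -1 then wv e + wv e + (1, -1) else wv e + wv e

lemma oneType_L {E V : Finset (ℤ × ℤ)} {x : ℤ × ℤ} {M : ℤ} :
    OneType E V (GnL K h j A e E V) x M := by
  right
  intro l hl _ _
  exact mem_union.1 hl.1

lemma oneType_R {E V : Finset (ℤ × ℤ)} {x : ℤ × ℤ} {M : ℤ} :
    OneType E V (GnR K h j A e V) x M := by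
  left
  intro l hl _ _
  exact hl.1

lemma cen_L (hy : y % 2 = 0) : cen (lt (-1, y)) = (1 - y, y - 1) := by
  unfold cen
  rw [tt_lt, if_pos rfl, wv_L]
  unfold gp
  refine Prod.ext ?_ ?_ <;> simp only [Prod.fst_add, Prod.snd_add] <;> omega

lemma cen_R (hw : 0 ≤ w) (hy : (w + y) % 2 = 1) :
    cen (lt (w, y)) = (w - y - 1, w + y + 1) := by
  unfold cen
  rw [tt_lt, if_neg (by simp only; omega), wv_R hw]
  unfold gp
  refine Prod.ext ?_ ?_ <;> simp only [Prod.fst_add, Prod.snd_add] <;> omega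

/-- the constants -/
lemma rho_facts {D R : ℤ} (hΛ : 1 ≤ Λ) (hK : 40 * (Λ + 1) ≤ K) (hKw : 40 * (Λ + 1) * h ≤ K * w)
    (hR : R = D / K) (hR1 : 1 ≤ R) (hD : 4 * D ≤ h + 2) :
    10 * (Λ * (2 * R + 2) + (2 * R + 1) + 1) ≤ D ∧
      40 * (Λ * (2 * R + 2) + (2 * R + 1) + 1) ≤ w + 2 ∧
      8 ≤ Λ * (2 * R + 2) + (2 * R + 1) + 1 := by
  have hKp : 0 < K := by nlinarith
  have h1 : K * R ≤ D := by rw [hR]; exact Int.mul_ediv_self_le (by omega)
  have h2 : Λ * (2 * R + 2) + (2 * R + 1) + 1 = (Λ + 1) * (2 * R + 2) := by ring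
  rw [h2]
  have h3 : (Λ + 1) * (2 * R + 2) ≤ (Λ + 1) * (4 * R) := by
    refine mul_le_mul_of_nonneg_left (by omega) (by omega)
  have h4 : 40 * (Λ + 1) * R ≤ K * R := mul_le_mul_of_nonneg_right hK (by omega)
  refine ⟨by nlinarith, ?_, by nlinarith⟩
  by_contra hcon
  push Not at hcon
  have h5 : w + 3 ≤ 160 * ((Λ + 1) * R) := by nlinarith
  have h6 : K * (w + 3) ≤ K * (160 * ((Λ + 1) * R)) := mul_le_mul_of_nonneg_left h5 hKp.le
  have h7 : K * (160 * ((Λ + 1) * R)) = 40 * (Λ + 1) * (4 * (K * R)) := by ring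
  have h8 : 40 * (Λ + 1) * (4 * (K * R)) ≤ 40 * (Λ + 1) * (h + 2) :=
    mul_le_mul_of_nonneg_left (by linarith) (by omega)
  nlinarith

section boxes

variable {N : ℕ} {Gt : Finset (ℤ × ℤ)} {Kv Kf : Set (ℤ × ℤ)}

/-- the union of the boxes of the ties of `A` -/
noncomputable def BA (K h j : ℤ) (A : Finset (ℤ × ℤ)) : Finset (ℤ × ℤ) :=
  A.biUnion (Bt K h j A)

/-- **The box of a tie of the left wall** in the glued configuration. -/
theorem box_L (hw : 2 ≤ w) (w2 : w % 2 = 0) (h2 : h % 2 = 0) (j2 : j % 2 = 0) (g0 : 0 < j)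
    (g1 : j < h) (hA : A ⊆ Ti w h j) (hΛ : 1 ≤ Λ) (hK : 40 * (Λ + 1) ≤ K)
    (hKw : 40 * (Λ + 1) * h ≤ K * w) (he : lt (-1, y) ∈ A) (hr : 1 ≤ gD h j A (lt (-1, y)) / K)
    (hz : z ⊆ gE (BL w j (BA K h j A)) (BU w h j (BA K h j A)) (1, -1))
    (hW1 : ∀ Y, j < Y → Y + 1 < h → lt (-1, Y) ∈ W → lt (-1, Y) ∈ A)
    (hW2 : ∀ Y, j ≤ Y → Y < h → lt (-2, Y) ∈ W)
    (hKv : ∀ u : ℤ × ℤ, u.1 + u.2 = -1 → j - 1 ≤ u.2 - u.1 → u.2 - u.1 ≤ h → u ∈ Kv)
    (hKf : ∀ f : ℤ × ℤ, f.1 + f.2 ≤ 0 → j - 1 ≤ f.2 - f.1 → f.2 - f.1 ≤ h → f ∈ Kf)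
    (hv0 : 0 ≤ v.1 + v.2) (hv1 : v.2 - v.1 ≤ j)
    (hKO : ∀ (O : Set (ℤ × ℤ)) (hO : O ∈ Lp (z ∪ WGl w h j W (BU w h j (BA K h j A))) v),
      (∀ g ∈ Gt, g ∉ O) → (∀ u ∈ Kv, ixv hO.2.1.toFinset u = 0) ∧
        ∀ f ∈ Kf, ixf hO.2.1.toFinset f = 0) :
    BoxGeo (z ∪ WGl w h j W (BU w h j (BA K h j A))) v Gt (BlL K h j A (lt (-1, y)))
      (GnL K h j A (lt (-1, y)) (gE (BL w j (BA K h j A)) (BU w h j (BA K h j A)) (1, -1))
        (WGl w h j W (BU w h j (BA K h j A)))) (cen (lt (-1, y)))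
      (2 * (gD h j A (lt (-1, y)) / K) + 1) (Λ * (2 * (gD h j A (lt (-1, y)) / K) + 2)) := by
  have h1 := (mem_Ti_L (by omega)).1 (hA he)
  obtain ⟨k1, k2, k3⟩ := gD_L (by omega) h2 j2 hA he
  have hK4 : 4 ≤ K := by nlinarith
  obtain ⟨q1, q2, q3⟩ := rho_facts (D := gD h j A (lt (-1, y))) hΛ hK hKw rfl hr (by omega)
  have hMem := @mem_Bt_L w h j
  set D := gD h j A (lt (-1, y)) with hD
  set R := D / K with hR
  set ρ := Λ * (2 * R + 2) + (2 * R + 1) + 1 with hρ
  rw [cen_L h1.2.2]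
  constructor
  · omega
  · exact mul_nonneg (by omega) (by omega)
  · rw [Set.disjoint_left]
    intro l h3 h4
    exact h4.2 h3
  · -- lab
    intro O hO hg c hc n1 n2
    simp only at n1 n2
    rw [← hρ, abs_le] at n1 n2
    obtain ⟨X, Y, hl, v1, v2, f1, f2⟩ := corner_grid c
    have hn := lab_near c
    rw [hl] at hn
    have hn1 := abs_le.1 hn.1
    have hn2 := abs_le.1 hn.2
    unfold lt at hn1 hn2
    simp only at hn1 hn2
    rw [hl]
    obtain ⟨kv, kf⟩ := hKO O hO hg
    rcases lt_or_ge X (-1) with hX | hX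
    · exfalso
      have hf0 := kf (fi c) (hKf _ (by omega) (by omega) (by omega))
      by_cases hXv : (vx c).1 + (vx c).2 = -1
      · exact no_corner hO hc (kv _ (hKv _ hXv (by omega) (by omega))) hf0
      · have h5 := isolated hO hc (fun d hd hdL => by
          obtain ⟨X', Y', hl', v1', v2', -, -⟩ := corner_grid d
          rw [hd] at v1' v2'
          rw [hl'] at hdL
          rcases mem_union.1 hdL with h6 | h6
          · have h7 := hz h6
            rw [← lbt_lt, mem_gE, Pool.Agent.H30.Mid.mem_BL, Pool.Agent.H30.Mid.mem_BU] at h7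
            omega
          · rw [← lbt_lt, mem_WGl] at h6
            rcases h6 with h6 | h6
            · omega
            · have hX' : X' = -2 := by omega
              subst hX'
              refine h6.2.1 ?_
              rw [lbt_lt]
              exact hW2 _ (by omega) (by omega))
        rw [← h5] at v1 hXv
        omega
    · by_cases hbl : lt (X, Y) ∈ BlL K h j A (lt (-1, y))
      · exact Or.inr hbl
      · left
        refine ⟨?_, hbl⟩
        have e1 : lt (X, Y) - (1, -1) = lt (X, Y + 1) := by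
          rw [← lbt_lt, ← lbt_lt, lbt_tr]
        unfold BlL at hbl
        rw [Set.mem_ofPred_eq, e1, mem_insert, not_or] at hbl
        rcases eq_or_lt_of_le hX with hX1 | hX1
        · -- first layer
          subst hX1
          have h5 : lt (-1, Y + 1) ∉ W := by
            intro h6
            have h7 := hW1 _ (by omega) (by omega) h6
            by_cases h8 : y = Y + 1
            · exact hbl.1 (by rw [h8])
            · have h9 := gD_LL (by omega) h2 j2 hA he h7 h8
              rw [← hD, le_abs] at h9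
              omega
          refine mem_union_right _ ?_
          rw [← lbt_lt, mem_WGl]
          refine Or.inr ⟨by omega, by rw [lbt_lt]; exact h5, ?_⟩
          rw [Pool.Agent.H30.Mid.mem_BU]
          omega
        · refine mem_union_left _ ?_
          rw [← lbt_lt, mem_gE]
          right
          rw [Pool.Agent.H30.Mid.mem_BU]
          refine ⟨by omega, ?_⟩
          rw [lbt_lt]
          unfold BA
          rw [mem_biUnion]
          rintro ⟨e', he', hm⟩
          rcases Ti_cases (hA he') with ⟨y1, rfl, m3, m4, m5⟩ | ⟨y1, rfl, m3, m4, m5⟩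
          · by_cases h8 : y = y1
            · subst h8; exact hbl.2 hm
            · have h9 := gD_LL (by omega) h2 j2 hA he he' h8
              have h10 := gD_LL (by omega) h2 j2 hA he' he (Ne.symm h8)
              have h11 := (mem_Bt_L hw w2 h2 j2 hA hK4 he' hm).2.2.1
              have h12 : |y - y1| ≤ |y - (Y + 1)| + |Y + 1 - y1| := abs_sub_le _ _ _
              have h13 : |y - (Y + 1)| ≤ ρ + 2 := abs_le.2 (by omega)
              rw [abs_sub_comm y1 y] at h10
              rw [← hD] at h9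
              omega
          · have h11 := mem_Bt_R hw w2 h2 j2 hA hK4 he' hm
            omega
  · -- near
    intro c hc
    obtain ⟨X, Y, hl, -, -, -, -⟩ := corner_grid c
    have hn := lab_near c
    rw [hl] at hn hc
    have e1 : lt (X, Y) - (1, -1) = lt (X, Y + 1) := by
      rw [← lbt_lt, ← lbt_lt, lbt_tr]
    unfold BlL at hc
    rw [Set.mem_ofPred_eq, e1, mem_insert] at hc
    have hn1 := abs_le.1 hn.1
    have hn2 := abs_le.1 hn.2
    unfold lt at hn1 hn2
    simp only at hn1 hn2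
    simp only
    rw [abs_le, abs_le]
    rcases hc with hc | hc
    · have := lt_inj hc
      simp only [Prod.mk.injEq] at this
      omega
    · unfold Bt at hc
      rw [mem_HBL h1.2.2, ← hD, ← hR] at hc
      omega
  · left
    simp only
    rw [← hρ, lt_abs]
    omega

/-- **The box of a tie of the right wall** in the glued configuration. -/
theorem box_R (hw : 2 ≤ w) (w2 : w % 2 = 0) (h2 : h % 2 = 0) (j2 : j % 2 = 0) (g0 : 0 < j)
    (g1 : j < h) (hA : A ⊆ Ti w h j) (hΛ : 1 ≤ Λ) (hK : 40 * (Λ + 1) ≤ K)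
    (hKw : 40 * (Λ + 1) * h ≤ K * w) (he : lt (w, y) ∈ A) (hr : 1 ≤ gD h j A (lt (w, y)) / K)
    (hWE : ∀ l ∈ BL w j (BA K h j A), l ∉ W)
    (hW1 : ∀ Y, -1 ≤ Y → Y < j - 1 → lt (w, Y) ∈ W → lt (w, Y) ∈ A)
    (hKv : ∀ u : ℤ × ℤ, w + 1 ≤ u.1 + u.2 → u.1 + u.2 ≤ w + 2 → -1 ≤ u.2 - u.1 →
      u.2 - u.1 ≤ j - 1 → u ∈ Kv)
    (hKf : ∀ f : ℤ × ℤ, w + 2 ≤ f.1 + f.2 → f.1 + f.2 ≤ w + 3 → -1 ≤ f.2 - f.1 →
      f.2 - f.1 ≤ j - 1 → f ∈ Kf)
    (hv0 : v.1 + v.2 ≤ w) (hv1 : j - 1 ≤ v.2 - v.1)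
    (hKO : ∀ (O : Set (ℤ × ℤ)) (hO : O ∈ Lp (z ∪ WGl w h j W (BU w h j (BA K h j A))) v),
      (∀ g ∈ Gt, g ∉ O) → (∀ u ∈ Kv, ixv hO.2.1.toFinset u = 0) ∧
        ∀ f ∈ Kf, ixf hO.2.1.toFinset f = 0) :
    BoxGeo (z ∪ WGl w h j W (BU w h j (BA K h j A))) v Gt (BlR K h j A (lt (w, y)))
      (GnR K h j A (lt (w, y)) (WGl w h j W (BU w h j (BA K h j A)))) (cen (lt (w, y)))
      (2 * (gD h j A (lt (w, y)) / K) + 1) (Λ * (2 * (gD h j A (lt (w, y)) / K) + 2)) := by
  have h1 := (mem_Ti_R (by omega)).1 (hA he)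
  obtain ⟨k1, k2, k3⟩ := gD_R (by omega) h2 j2 hA he
  have hK4 : 4 ≤ K := by nlinarith
  obtain ⟨q1, q2, q3⟩ := rho_facts (D := gD h j A (lt (w, y))) hΛ hK hKw rfl hr (by omega)
  set D := gD h j A (lt (w, y)) with hD
  set R := D / K with hR
  set ρ := Λ * (2 * R + 2) + (2 * R + 1) + 1 with hρ
  rw [cen_R (by omega) (by omega)]
  constructor
  · omega
  · exact mul_nonneg (by omega) (by omega)
  · rw [Set.disjoint_left]
    intro l h3 h4
    exact h4.2 h3
  · -- lab
    intro O hO hg c hc n1 n2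
    simp only at n1 n2
    rw [← hρ, abs_le] at n1 n2
    obtain ⟨X, Y, hl, v1, v2, f1, f2⟩ := corner_grid c
    have hn := lab_near c
    rw [hl] at hn
    have hn1 := abs_le.1 hn.1
    have hn2 := abs_le.1 hn.2
    unfold lt at hn1 hn2
    simp only at hn1 hn2
    rw [hl]
    obtain ⟨kv, kf⟩ := hKO O hO hg
    by_cases hbl : lt (X, Y) ∈ BlR K h j A (lt (w, y))
    · exact Or.inr hbl
    by_cases hWG : lt (X, Y) ∈ WGl w h j W (BU w h j (BA K h j A))
    · exfalso
      rw [← lbt_lt, mem_WGl] at hWG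
      unfold BlR at hbl
      rw [Set.mem_ofPred_eq, mem_insert, not_or] at hbl
      rcases hWG with hWG | hWG
      · rcases lt_trichotomy X w with hX | hX | hX
        · by_cases hB : lt (X, Y) ∈ BA K h j A
          · unfold BA at hB
            rw [mem_biUnion] at hB
            obtain ⟨e', he', hm⟩ := hB
            rcases Ti_cases (hA he') with ⟨y1, rfl, m3, m4, m5⟩ | ⟨y1, rfl, m3, m4, m5⟩
            · have h11 := mem_Bt_L hw w2 h2 j2 hA hK4 he' hm
              omega
            · by_cases h8 : y = y1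
              · subst h8; exact hbl.2 hm
              · have h9 := gD_RR (by omega) h2 j2 hA he he' h8
                have h10 := gD_RR (by omega) h2 j2 hA he' he (Ne.symm h8)
                have h11 := (mem_Bt_R hw w2 h2 j2 hA hK4 he' hm).2.2.1
                have h12 : |y - y1| ≤ |y - Y| + |Y - y1| := abs_sub_le _ _ _
                have h13 : |y - Y| ≤ ρ + 2 := abs_le.2 (by omega)
                rw [abs_sub_comm y1 y] at h10
                rw [← hD] at h9
                omega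
          · refine hWE (lbt X Y) ?_ hWG.1
            rw [Pool.Agent.H30.Mid.mem_BL, lbt_lt]
            exact ⟨by omega, hB⟩
        · subst hX
          rw [lbt_lt] at hWG
          have h7 := hW1 _ (by omega) (by omega) hWG.1
          by_cases h8 : y = Y
          · exact hbl.1 (by rw [h8])
          · have h9 := gD_RR (by omega) h2 j2 hA he h7 h8
            rw [← hD, le_abs] at h9
            omega
        · exact no_corner hO hc (kv _ (hKv _ (by omega) (by omega) (by omega) (by omega)))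
            (kf _ (hKf _ (by omega) (by omega) (by omega) (by omega)))
      · omega
    · exact Or.inl ⟨hWG, hbl⟩
  · -- near
    intro c hc
    obtain ⟨X, Y, hl, -, -, -, -⟩ := corner_grid c
    have hn := lab_near c
    rw [hl] at hn hc
    unfold BlR at hc
    rw [Set.mem_ofPred_eq, mem_insert] at hc
    have hn1 := abs_le.1 hn.1
    have hn2 := abs_le.1 hn.2
    unfold lt at hn1 hn2
    simp only at hn1 hn2
    simp only
    rw [abs_le, abs_le]
    rcases hc with hc | hc
    · have := lt_inj hc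
      simp only [Prod.mk.injEq] at this
      omega
    · unfold Bt at hc
      rw [mem_HBR (by omega) (by omega), ← hD, ← hR] at hc
      omega
  · left
    simp only
    rw [← hρ, lt_abs]
    omega

end boxes

end Pool.Agent.H46.G1
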